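import Pool.Agent.FS.DirCol.K

/-! The guided recursion on a directed order. -/

namespace Pool.Agent.FS.DirCol

open ZFSet Pool.Agent.Lib.MP_329f2d_lc Pool.Agent.Lib.MP_a2bc17_lc Pool.Agent.FS.IndexedSquare

set_option synthInstance.maxSize 100000

/-- Starting points in `X` of blocks that miss `{γ : c(γ,β) ≤ j}`. -/
noncomputable def Mx (G c L β j R X : V) : V :=
  ZFSet.sep (fun m => ∀ γ ∈ snd (ap G (pair m R)), pair m (snd γ) ∈ L → ¬ ColLe c (snd γ) β j) X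

/-- The step function guided by `β` from level `i` on. -/
noncomputable def GE (E D β i : V) : V :=
  graph (fun z => ap E (pair β (pair (i ∪ fst z) (snd z)))) D

section
variable {K : Set V → Prop} [Cl K] {Γ : Type} [Countable Γ]
  (r s t u w x y : Set V → (Γ → V) → V) [Tm K r] [Tm K s] [Tm K t] [Tm K u] [Tm K w] [Tm K x]
  [Tm K y]
instance tm_Mx : Tm K fun W v => Mx (r W v) (s W v) (t W v) (u W v) (w W v) (x W v) (y W v) := by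
  unfold Mx; infer_instance
instance tm_GE : Tm K fun W v => GE (r W v) (s W v) (t W v) (u W v) := by
  unfold GE; infer_instance
end

variable {N : Set V} {μ Λ L Q : V}

theorem stepR (hN : ZFC N) (hμ : Regu N μ) (o : Od N μ Λ L) (hQ : IsR N μ (pair Λ L) Q) {F p : V}
    (hF : F ∈ N) (hm : ∀ r r' x y, In3 F r x y → Lq N μ (pair Λ L) r' r → In3 F r' x y)
    (hp : p ∈ N) (ht : ∀ q, Lq N μ (pair Λ L) q p → ∀ x ∈ μ, ∃ r, Lq N μ (pair Λ L) r q ∧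
      ∃ y ∈ μ, In3 F r x y) :
    ∃ G ∈ N, ∀ m ∈ Λ, ∀ R, Cd N μ (pair Λ L) R → Lq N μ (pair Λ L) (ap G (pair m R)) R ∧
      (Lq N μ (pair Λ L) R p →
      (∀ γ ∈ snd (ap G (pair m R)), fst γ ∈ fst R ∨ pair m (snd γ) ∈ L) ∧
      ∃ z ∈ snd (ap G (pair m R)), fst R ⊆ fst z ∧ ∃ y ∈ fst (ap G (pair m R)),
        In3 F (ap G (pair m R)) (fst z) y) := by
  have hz : ZF N := hN.1.1
  have ho := hμ.ord
  refine step_funR hN hQ o.hΛ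
    (R := fun m R w => Lq N μ (pair Λ L) w R ∧ (Lq N μ (pair Λ L) R p →
      (∀ γ ∈ snd w, fst γ ∈ fst R ∨ pair m (snd γ) ∈ L) ∧
      ∃ z ∈ snd w, fst R ⊆ fst z ∧ ∃ y ∈ fst w, In3 F w (fst z) y))
    (cls5 (K := ZF) (S := fun W μ Λ L p F z => Cd W μ (pair Λ L) (snd (fst z)) →
      Lq W μ (pair Λ L) (snd z) (snd (fst z)) ∧ (Lq W μ (pair Λ L) (snd (fst z)) p →
        (∀ γ ∈ snd (snd z), fst γ ∈ fst (snd (fst z)) ∨ pair (fst (fst z)) (snd γ) ∈ L) ∧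
        ∃ x ∈ snd (snd z), fst (snd (fst z)) ⊆ fst x ∧
          ∃ y ∈ fst (snd z), In3 F (snd z) (fst x) y))
      hz hμ.1.1 o.hΛ o.hL hp hF) fun m hm' q hq => ?_
  by_cases h3 : Lq N μ (pair Λ L) q p
  swap
  · exact ⟨q, hq.mem, hq.refl, fun a => absurd a h3⟩
  obtain ⟨b0, b01, b02⟩ := o.ub hN hμ hq
  obtain ⟨a, u, u1, ma⟩ := o.up2 hN hμ b01 hm'
  have c1 : Lq N μ (pair Λ L)
      (pair (insert (fst q) (fst q)) (insert (pair (fst q) a) (snd q))) q := by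
    refine ⟨⟨by simpa using hμ.succ hz hq.1, fun γ hγ => ?_, by simp,
      tm2 (K := ZF) (t := fun _ a q =>
        pair (insert (fst q) (fst q)) (insert (pair (fst q) a) (snd q)))
        hz (hz.mem u o.hΛ) hq.mem, fun γ hγ => ?_, fun γ hγ γ' hγ' => ?_⟩, hq, fun γ hγ => ?_,
      fun γ hγ => ?_, fun γ hγ b => ?_⟩
    · rw [snd_pair, mem_insert_iff] at hγ
      rw [fst_pair, mem_insert_iff]
      exact hγ.imp (fun e => by rw [e, fst_pair]) (hq.2.1 γ)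
    · rw [snd_pair, mem_insert_iff] at hγ
      rcases hγ with rfl | hγ
      exacts [pair_mem_prod.2 ⟨hq.1, by rwa [fst_pair]⟩, hq.2.2.2.2.1 hγ]
    · rw [snd_pair, mem_insert_iff] at hγ hγ'
      rcases hγ with rfl | hγ <;> rcases hγ' with rfl | hγ'
      · exact ⟨fun _ => rfl, fun a => absurd a (mem_irrefl _)⟩
      · rw [fst_pair]
        exact ⟨fun e => absurd (e ▸ hq.2.1 _ hγ') (mem_irrefl _),
          fun b => absurd (hq.2.1 _ hγ') (mem_asymm b)⟩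
      · rw [fst_pair, snd_pair, snd_pair]
        exact ⟨fun e => absurd (e ▸ hq.2.1 _ hγ) (mem_irrefl _), fun _ => o.tr (b02 γ hγ) u1⟩
      · exact hq.2.2.2.2.2 γ hγ γ' hγ'
    · rw [fst_pair]
      exact mem_insert_of_mem _ hγ
    · rw [snd_pair]
      exact mem_insert_of_mem _ hγ
    · rw [snd_pair, mem_insert_iff] at hγ
      exact hγ.resolve_left fun e => by
        rw [e, fst_pair] at b
        exact mem_irrefl _ b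
  obtain ⟨r, a1, y, hy, a2⟩ := ht _ (c1.trans h3) _ hq.1
  obtain ⟨w, a3, a4⟩ := padR hz hμ (hμ.succ hz hy) a1.1
  have a5 := a3.trans a1
  have nw : pair (fst q) a ∈ snd w := a5.snd_sub (by rw [snd_pair]; exact mem_insert _ _)
  refine ⟨w, a3.1.mem, a5.trans c1, fun _ => ⟨fun γ hγ => ?_, _, nw, by rw [fst_pair], y,
    a4 (mem_insert _ _), by rw [fst_pair]; exact hm _ _ _ _ a2 a3⟩⟩
  by_cases hg : fst γ ∈ insert (fst q) (fst q)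
  · have := a5.2.2.2.2 γ hγ (by rwa [fst_pair])
    rw [snd_pair, mem_insert_iff] at this
    rcases this with e | e
    · exact .inr (by rw [e, snd_pair]; exact ma)
    · exact .inl (hq.2.1 _ e)
  · have b1 := (((ho.mem a3.1.1).mem (a3.1.2.1 _ hγ)).notMem_iff_subset
      (ho.mem (hμ.succ hz hq.1))).1 hg (mem_insert _ _)
    have b2 := (a3.1.2.2.2.2.2 _ nw γ hγ).2 (by rwa [fst_pair])
    rw [snd_pair, snd_pair] at b2
    exact .inr (o.tr ma b2)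

theorem denseR (hN : ZFC N) (hμ : Regu N μ) (o : Od N μ Λ L) (hQ : IsR N μ (pair Λ L) Q)
    {ν ρ κ c F p q : V}
    (hν : Regu N ν) (hρ : Regu N ρ) (hνρ : ν ∈ ρ) (hρμ : ρ ∈ μ) (hνκ : ν ∈ κ) (hc : c ∈ N)
    (cf : IsFunc (prod Λ Λ) ν c) (sa : SubaddL c L ν) (su : StrUnbL N c Λ L ν)
    (hF : F ∈ N) (hm : ∀ r r' x y, In3 F r x y → Lq N μ (pair Λ L) r' r → In3 F r' x y)
    (hp : p ∈ N) (ht : ∀ q, Lq N μ (pair Λ L) q p → ∀ x ∈ μ, ∃ r, Lq N μ (pair Λ L) r q ∧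
      ∃ y ∈ μ, In3 F r x y) (hq : Lq N μ (pair Λ L) q p) :
    ∃ r, Lq N μ (pair Λ L) r q ∧ fst r ≠ ∅ ∧ Unb (img fst (snd r)) (fst r) ∧ CofLt N (fst r) κ ∧
      (∃ β ∈ Λ, (∀ z ∈ snd r, pair (snd z) β ∈ L) ∧
        ∀ j ∈ ν, ∃ a ∈ fst r, ∀ z ∈ snd r, a ∈ fst z → ¬ ColLe c (snd z) β j) ∧
      ∀ α ∈ fst r, ∃ α' ∈ fst r, ∃ y ∈ fst r, α ⊆ α' ∧ In3 F r α' y := by
  have hz : ZF N := hN.1.1
  have μo := hμ.ord
  have νo := hν.ord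
  have ρo := hρ.ord
  have hνμ : ν ∈ μ := μo.mem_trans hνρ hρμ
  have ΛN := o.hΛ
  have LN := o.hL
  have νN := hν.1.1
  have qN := hq.1.mem
  obtain ⟨G, hG, h2⟩ := stepR hN hμ o hQ hF hm hp ht
  obtain ⟨Kf, hK, k2⟩ := step_funR hN hQ νN
    (R := fun j R w => fst w ⊆ Λ ∧ snd w ∈ Λ ∧
      (∀ m ∈ fst w, ∀ γ ∈ snd (ap G (pair m R)), pair (snd γ) (snd w) ∈ L) ∧
      ∀ β ∈ Λ, pair (snd w) β ∈ L → Mx G c L β j R (fst w) ≠ ∅)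
    (cls5 (K := ZF) (S := fun W μ Λ L G c z => Cd W μ (pair Λ L) (snd (fst z)) →
      fst (snd z) ⊆ Λ ∧ snd (snd z) ∈ Λ ∧ (∀ m ∈ fst (snd z),
        ∀ γ ∈ snd (ap G (pair m (snd (fst z)))), pair (snd γ) (snd (snd z)) ∈ L) ∧
      ∀ β ∈ Λ, pair (snd (snd z)) β ∈ L →
        Mx G c L β (fst (fst z)) (snd (fst z)) (fst (snd z)) ≠ ∅) hz hμ.1.1 ΛN LN hG hc)
    fun j hj R hR => by
      obtain ⟨X, x1, x2, w, w1, w2, w3⟩ := kur hN hμ o hc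
        (tm3 (K := ZF) (t := fun _ G R θ => graph (fun m => ap G (pair m R)) θ) hz hG hR.mem ΛN)
        hj (hz.mem hj νN) sa su fun m a => by rw [ap_graph' a]; exact (h2 m a R hR).1.1
      refine ⟨pair X w, hz.opair x1 (hz.mem w1 ΛN), ?_⟩
      rw [fst_pair, snd_pair]
      refine ⟨x2, w1, fun m a => ?_, fun β b1 b2 e => ?_⟩
      · have := w2 m a
        rwa [ap_graph' (x2 a)] at this
      · obtain ⟨m, a1, a2⟩ := w3 β b1 b2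
        rw [ap_graph' (x2 a1)] at a2
        exact notMem_empty m (e ▸ mem_sep.2 ⟨a1, a2⟩)
  obtain ⟨pw, w1, w2⟩ := hN.2 Λ ΛN
  obtain ⟨ch, chN, -, -, ch2⟩ := Cls2.choice (W := N) hN.1
    (R := fun Y m => m ∈ Λ ∧ (Y ⊆ Λ → Y ≠ ∅ → m ∈ Y))
    (cls1 (K := ZF) (S := fun _ Λ z => snd z ∈ Λ ∧ (fst z ⊆ Λ → fst z ≠ ∅ → snd z ∈ fst z)) hz ΛN)
    w1 fun Y _ => by
      by_cases e : Y ⊆ Λ ∧ ∃ m, m ∈ Y
      · obtain ⟨e1, m, e2⟩ := e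
        exact ⟨m, hz.mem (e1 e2) ΛN, e1 e2, fun _ _ => e2⟩
      · obtain ⟨m, e0⟩ := o.ne hN hμ
        exact ⟨m, hz.mem e0 ΛN, e0, fun a b => absurd ⟨a, by
          by_contra h
          exact b ((eq_empty Y).2 fun y hy => h ⟨y, hy⟩)⟩ e⟩
  have hD := tm2 (K := ZF) (t := fun _ σ Q => prod σ (⋃₀ ⋃₀ Q)) hz νN hQ.mem
  set D := prod ν (⋃₀ ⋃₀ Q) with hDd
  have hE := tm7 (K := ZF) (t := fun _ G c L Kf ch Λ D => graph (fun z =>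
    ap G (pair (ap ch (Mx G c L (fst z) (fst (snd z)) (snd (snd z)) (fst (ap Kf (snd z)))))
      (snd (snd z)))) (prod Λ D)) hz hG hc LN hK chN ΛN hD
  set E := graph _ (prod Λ D) with hEd
  have mxs : ∀ β, ∀ j ∈ ν, ∀ R, Cd N μ (pair Λ L) R →
      Mx G c L β j R (fst (ap Kf (pair j R))) ⊆ Λ := fun β j hj R hR z a =>
    (k2 j hj R hR).1 (mem_sep.1 a).1
  have chs := fun β (hβ : β ∈ Λ) j (hj : j ∈ ν) R (hR : Cd N μ (pair Λ L) R) =>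
    ch2 _ (w2 _ (tm7 (K := ZF) (t := fun _ G c L β j R Kf =>
      Mx G c L β j R (fst (ap Kf (pair j R)))) hz hG hc LN (hz.mem hβ ΛN) (hz.mem hj νN) hR.mem hK)
      (mxs β j hj R hR))
  have gap : ∀ β ∈ Λ, ∀ i ∈ ν, ∀ ξ ∈ ν, ∀ R, Cd N μ (pair Λ L) R → ap (GE E D β i) (pair ξ R) =
      ap G (pair (ap ch (Mx G c L β (i ∪ ξ) R (fst (ap Kf (pair (i ∪ ξ) R))))) R) :=
    fun β hβ i hi ξ hξ R hR => by
    have a := left_mem_sUnion ((hQ.iff _ _).2 hR.refl)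
    rw [GE, ap_graph' (pair_mem_prod.2 ⟨hξ, a⟩)]
    simp only [fst_pair, snd_pair]
    rw [hEd, ap_graph' (pair_mem_prod.2 ⟨hβ, pair_mem_prod.2 ⟨union_mem νo hi hξ, a⟩⟩)]
    simp only [fst_pair, snd_pair]
  clear_value E
  have chn : ∀ β ∈ Λ, ∀ i ∈ ν, ∀ ξ ∈ insert ν ν, Lq N μ (pair Λ L) (Bs (GE E D β i) ∅ q ξ) q ∧
      ∀ η ∈ ξ, Lq N μ (pair Λ L) (Bs (GE E D β i) ∅ q ξ) (PP (GE E D β i) ∅ q η) :=
    fun β hβ i hi ξ =>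
    chainR hz hμ (tm4 (K := ZF) (t := fun _ E D β i => GE E D β i) hz hE hD
      (hz.mem hβ ΛN) (hz.mem hi νN)) hq.1 hνμ
      (fun ξ hξ R hR => by
        rw [gap β hβ i hi ξ hξ R hR]
        exact (h2 _ (chs β hβ _ (union_mem νo hi hξ) R hR).1 R hR).1) ξ
  have pp : ∀ β ∈ Λ, ∀ i ∈ ν, ∀ ξ ∈ ν, PP (GE E D β i) ∅ q ξ =
      ap G (pair (ap ch (Mx G c L β (i ∪ ξ) (Bs (GE E D β i) ∅ q ξ)
        (fst (ap Kf (pair (i ∪ ξ) (Bs (GE E D β i) ∅ q ξ)))))) (Bs (GE E D β i) ∅ q ξ)) :=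
    fun β hβ i hi ξ hξ => by
      rw [PP_eq, gap β hβ i hi ξ hξ _ (chn β hβ i hi ξ (mem_insert_of_mem _ hξ)).1.1]
  have hw := tm6 (K := ZF) (t := fun _ E D Kf q Λ ν => graph (fun z =>
    snd (ap Kf (pair (fst (snd z) ∪ snd (snd z))
      (Bs (GE E D (fst z) (fst (snd z))) ∅ q (snd (snd z)))))) (prod Λ (prod ν ν)))
    hz hE hD hK qN ΛN νN
  set wf := graph _ (prod Λ (prod ν ν)) with hwd
  have wap : ∀ x ∈ Λ, ∀ i ∈ ν, ∀ ξ ∈ ν, ap wf (pair x (pair i ξ)) =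
      snd (ap Kf (pair (i ∪ ξ) (Bs (GE E D x i) ∅ q ξ))) := fun x hx i hi ξ hξ => by
    rw [hwd, ap_graph' (pair_mem_prod.2 ⟨hx, pair_mem_prod.2 ⟨hi, hξ⟩⟩)]
    simp only [fst_pair, snd_pair]
  clear_value wf
  have wΛ : ∀ x ∈ Λ, ∀ i ∈ ν, ∀ ξ ∈ ν, ap wf (pair x (pair i ξ)) ∈ Λ := fun x hx i hi ξ hξ => by
    rw [wap x hx i hi ξ hξ]
    exact (k2 _ (union_mem νo hi hξ) _ (chn x hx i hi ξ (mem_insert_of_mem _ hξ)).1.1).2.1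
  have one : ∀ x ∈ Λ, ∃ z ∈ Λ, pair x z ∈ L ∧
      ∀ i ∈ ν, ∀ ξ ∈ ν, pair (ap wf (pair x (pair i ξ))) z ∈ L := fun x hx => by
    have xN := hz.mem hx ΛN
    obtain ⟨b, b1, b2⟩ := bdM hN νN (o.small hνμ)
      (P := fun i z => ∀ ξ ∈ ν, pair (ap wf (pair x (pair i ξ))) z ∈ L)
      (cls5 (K := ZF) (S := fun _ Λ L wf x ν z => snd z ∈ Λ ∧
        ∀ ξ ∈ ν, pair (ap wf (pair x (pair (fst z) ξ))) (snd z) ∈ L) hz ΛN LN hw xN νN) ΛN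
      (fun i hi => bdM hN νN (o.small hνμ)
        (P := fun ξ z => pair (ap wf (pair x (pair i ξ))) z ∈ L)
        (cls5 (K := ZF) (S := fun _ Λ L wf x i z => snd z ∈ Λ ∧
          pair (ap wf (pair x (pair i (fst z)))) (snd z) ∈ L) hz ΛN LN hw xN (hz.mem hi νN)) ΛN
        (fun ξ hξ => (o.up2 hN hμ (wΛ x hx i hi ξ hξ) hx).imp fun _ a => ⟨a.1, a.2.1⟩)
        fun _ _ _ a b => o.tr a b)
      fun _ _ _ a b ξ hξ => o.tr (a ξ hξ) b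
    obtain ⟨z, z1, z2, z3⟩ := o.up2 hN hμ hx b1
    exact ⟨z, z1, z2, fun i hi ξ hξ => o.tr (b2 i hi ξ hξ) z3⟩
  obtain ⟨f, fN, f1, f2⟩ := seqrec hN ρo hρ.1.1 ΛN
    (P := fun s z => ∀ a ∈ s, pair (snd a) z ∈ L ∧
      ∀ i ∈ ν, ∀ ξ ∈ ν, pair (ap wf (pair (snd a) (pair i ξ))) z ∈ L)
    (cls5 (K := ZF) (S := fun _ ρ Λ L wf ν w => (∃ a ∈ ρ, IsFunc a Λ (fst w)) → snd w ∈ Λ ∧
      ∀ a ∈ fst w, pair (snd a) (snd w) ∈ L ∧
      ∀ i ∈ ν, ∀ ξ ∈ ν, pair (ap wf (pair (snd a) (pair i ξ))) (snd w) ∈ L)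
      hz hρ.1.1 ΛN LN hw νN) fun a ha s hs fs => by
      have aμ := μo.mem_trans ha hρμ
      obtain ⟨b, b1, b2⟩ := bdM hN (hz.mem aμ hμ.1.1) (o.small aμ)
        (P := fun η z => pair (ap s η) z ∈ L ∧
          ∀ i ∈ ν, ∀ ξ ∈ ν, pair (ap wf (pair (ap s η) (pair i ξ))) z ∈ L)
        (cls5 (K := ZF) (S := fun _ Λ L wf s ν z => snd z ∈ Λ ∧ pair (ap s (fst z)) (snd z) ∈ L ∧
          ∀ i ∈ ν, ∀ ξ ∈ ν, pair (ap wf (pair (ap s (fst z)) (pair i ξ))) (snd z) ∈ L)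
          hz ΛN LN hw hs νN) ΛN (fun η hη => one _ (isFunc_ap fs hη).2)
        fun _ _ _ a b => ⟨o.tr a.1 b, fun i hi ξ hξ => o.tr (a.2 i hi ξ hξ) b⟩
      refine ⟨b, b1, fun x hx => ?_⟩
      obtain ⟨u, u1, v, -, rfl⟩ := mem_prod.1 (fs.1 hx)
      rw [snd_pair, ← isFunc_ap_eq fs hx]
      exact b2 u u1
  have f3 : ∀ η' ∈ ρ, ∀ η ∈ η', pair (ap f η) (ap f η') ∈ L ∧
      ∀ i ∈ ν, ∀ ξ ∈ ν, pair (ap wf (pair (ap f η) (pair i ξ))) (ap f η') ∈ L :=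
    fun η' a η b => by
      obtain ⟨s, s1, s2⟩ := f2 η' a
      simpa using s1 _ (s2 η b)
  obtain ⟨β, hβ, fβ⟩ := o.small hρμ f fN f1
  replace fβ := fun η (hη : η ∈ ρ) => fβ η _ (isFunc_ap f1 hη).1
  have βN := hz.mem hβ ΛN
  obtain ⟨i, hi, hX⟩ := pigeon' hN (γ := ρ) (ν := ν) (Z := f) (c := c) (β := β)
    (fun t τ hτ hg h => by
      obtain ⟨m, m1, m2⟩ := hρ.bdd (ρo.mem_trans hτ (hρ.succ hz hνρ)) hg h
      exact ⟨_, hρ.succ hz m1, fun x hx => (ρo.mem (h x hx)).mem_of_subset_of_mem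
        (ρo.mem (hρ.succ hz m1)) (m2 x hx) (mem_insert _ _)⟩)
    ρo hρ.1.1 νN fN hc βN
    (fun α hα => ⟨_, mem_img.2 ⟨_, (isFunc_ap f1 (hρ.succ hz hα)).1, fst_pair _ _⟩,
      hρ.succ hz hα, mem_insert _ _⟩)
    fun z a _ => by
      obtain ⟨u, -, v, v1, rfl⟩ := mem_prod.1 (f1.1 a)
      rw [snd_pair]
      exact colLe_total cf v1 hβ
  have GN := tm4 (K := ZF) (t := fun _ E D β i => GE E D β i) hz hE hD βN (hz.mem hi νN)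
  have c0 := chn β hβ i hi
  have p0 := pp β hβ i hi
  have rq : ∀ ξ ∈ ν, Lq N μ (pair Λ L) (Bs (GE E D β i) ∅ q ξ) q := fun ξ hξ =>
    (c0 ξ (mem_insert_of_mem _ hξ)).1
  have free : ∀ ξ, ξ ∈ ν → ∃ n ∈ ρ, ∃ η ∈ n, pair (ap wf (pair β (pair i ξ))) (ap f η) ∈ L :=
    fun ξ => by
    induction ξ using ZFSet.inductionOn with
    | _ ξ ih =>
    intro hξ
    obtain ⟨b, b1, b2⟩ := bdd_rel hN hρ (ρo.mem_trans hξ hνρ)
      (P := fun ζ n => ∃ η ∈ n, pair (ap wf (pair β (pair i ζ))) (ap f η) ∈ L)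
      (cls6 (K := ZF) (S := fun _ ρ wf β i f L z => snd z ∈ ρ ∧
        ∃ η ∈ snd z, pair (ap wf (pair β (pair i (fst z)))) (ap f η) ∈ L)
        hz hρ.1.1 hw βN (hz.mem hi νN) fN LN) (fun ζ a => ih ζ a (νo.mem_trans a hξ))
      fun _ _ _ a s => a.imp fun _ c => ⟨s c.1, c.2⟩
    obtain ⟨z, z1, z2, z3, z4⟩ := hX b b1
    obtain ⟨η1, -, x, xΛ, rfl⟩ := mem_prod.1 (f1.1 z1)
    rw [fst_pair] at z2 z3
    rw [snd_pair] at z4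
    have ex := isFunc_ap_eq f1 z1
    have xβ : pair x β ∈ L := ex ▸ fβ η1 z2
    have coh : ∀ η, η ∈ ξ → PP (GE E D x i) ∅ q η = PP (GE E D β i) ∅ q η := fun η => by
      induction η using ZFSet.inductionOn with
      | _ η ih2 =>
      intro hη
      have ην := νo.mem_trans hη hξ
      have e : Bs (GE E D x i) ∅ q η = Bs (GE E D β i) ∅ q η := by
        rw [Bs, Bs, img_congr fun y hy => ih2 y hy ((νo.mem hξ).mem_trans hy hη)]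
      have u := union_mem νo hi ην
      obtain ⟨η', a1, a2⟩ := b2 η hη
      have a3 := o.tr a2 (f3 η1 z2 η' ((ρo.mem z2).mem_trans a1 z3)).1
      rw [ex, wap β hβ i hi η ην] at a3
      have eqv := fun m a γ b => sa (snd γ) x β
        (o.tr ((k2 _ u _ (rq η ην).1).2.2.1 m a γ b) a3) xβ _ u
        (z4.mono fun z a => mem_union.2 (.inl a))
      rw [pp x xΛ i hi η ην, p0 η ην, e]
      congr 3
      ext m
      simp only [Mx, mem_sep]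
      exact and_congr_right fun a => forall₂_congr fun γ b => by rw [eqv m a γ b]
    have e : Bs (GE E D x i) ∅ q ξ = Bs (GE E D β i) ∅ q ξ := by
      rw [Bs, Bs, img_congr coh]
    have s1 := hρ.succ hz z2
    refine ⟨_, hρ.succ hz s1, _, mem_insert _ _, ?_⟩
    have := (f3 _ s1 η1 (mem_insert _ _)).2 i hi ξ hξ
    rwa [ex, wap x xΛ i hi ξ hξ, e, ← wap β hβ i hi ξ hξ] at this
  have ms : ∀ ξ ∈ ν, (∀ γ ∈ snd (ap G (pair (ap ch (Mx G c L β (i ∪ ξ) (Bs (GE E D β i) ∅ q ξ)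
        (fst (ap Kf (pair (i ∪ ξ) (Bs (GE E D β i) ∅ q ξ)))))) (Bs (GE E D β i) ∅ q ξ))),
        pair (snd γ) β ∈ L) ∧
      ∀ γ ∈ snd (ap G (pair (ap ch (Mx G c L β (i ∪ ξ) (Bs (GE E D β i) ∅ q ξ)
        (fst (ap Kf (pair (i ∪ ξ) (Bs (GE E D β i) ∅ q ξ)))))) (Bs (GE E D β i) ∅ q ξ))),
        pair (ap ch (Mx G c L β (i ∪ ξ) (Bs (GE E D β i) ∅ q ξ)
        (fst (ap Kf (pair (i ∪ ξ) (Bs (GE E D β i) ∅ q ξ)))))) (snd γ) ∈ L →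
        ¬ ColLe c (snd γ) β (i ∪ ξ) := fun ξ hξ => by
    have u := union_mem νo hi hξ
    obtain ⟨n, n1, η, n2, n3⟩ := free ξ hξ
    have a := o.tr n3 (fβ η (ρo.mem_trans n2 n1))
    rw [wap β hβ i hi ξ hξ] at a
    have k := k2 _ u _ (rq ξ hξ).1
    have m := mem_sep.1 ((chs β hβ _ u _ (rq ξ hξ).1).2 (mxs β _ u _ (rq ξ hξ).1)
      (k.2.2.2 β hβ a))
    exact ⟨fun γ b => o.tr (k.2.2.1 _ m.1 γ b) a, m.2⟩
  have st := fun ξ (hξ : ξ ∈ ν) =>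
    h2 _ (chs β hβ _ (union_mem νo hi hξ) _ (rq ξ hξ).1).1 _ (rq ξ hξ).1
  have top := c0 ν (mem_insert _ _)
  have mf : ∀ ξ γ, γ ∈ fst (Bs (GE E D β i) ∅ q ξ) ↔
      γ ∈ fst q ∨ ∃ η ∈ ξ, γ ∈ fst (PP (GE E D β i) ∅ q η) := fun ξ γ => by
    rw [Bs, mem_fst_lb, ap_empty]
    simp only [notMem_empty, false_or, mem_insert_iff, mem_img]
    constructor
    · rintro ⟨r, rfl | ⟨η, a, rfl⟩, b⟩
      exacts [.inl b, .inr ⟨η, a, b⟩]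
    · rintro (b | ⟨η, a, b⟩)
      exacts [⟨q, .inl rfl, b⟩, ⟨_, .inr ⟨η, a, rfl⟩, b⟩]
  generalize hT : PP (GE E D β i) ∅ q = T at *
  have RN : graph (fun ξ => fst (Bs (GE E D β i) ∅ q ξ)) ν ∈ N :=
    tm3 (K := ZF) (t := fun _ g q ν => graph (fun η => fst (Bs g ∅ q η)) ν) hz GN qN νN
  generalize hR : Bs (GE E D β i) ∅ q = R at *
  have δo := μo.mem top.1.1.1
  have tR : ∀ ξ ∈ ν, Lq N μ (pair Λ L) (T ξ) (R ξ) := fun ξ hξ => by rw [p0 ξ hξ]; exact (st ξ hξ).1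
  have blk : ∀ ξ ∈ ν, ∃ z ∈ snd (R ν), fst z ∈ fst (R ν) ∧ fst (R ξ) ⊆ fst z ∧
      ∃ y ∈ fst (R ν), In3 F (R ν) (fst z) y := fun ξ hξ => by
    obtain ⟨-, z, a1, a2, y, a3, a4⟩ := (st ξ hξ).2 ((rq ξ hξ).trans hq)
    rw [← p0 ξ hξ] at a1 a3 a4
    have a5 := (top.2 ξ hξ).snd_sub a1
    exact ⟨z, a5, top.1.1.2.1 _ a5, a2, y, (top.2 ξ hξ).2.2.1 a3, hm _ _ _ _ a4 (top.2 ξ hξ)⟩
  have Rδ : ∀ ξ ∈ ν, fst (R ξ) ∈ fst (R ν) := fun ξ hξ => by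
    obtain ⟨z, -, a1, a2, -⟩ := blk ξ hξ
    exact (μo.mem (rq ξ hξ).1.1).mem_of_subset_of_mem δo a2 a1
  have cov : ∀ α ∈ fst (R ν), ∃ ξ ∈ ν, α ∈ fst (R ξ) := fun α hα => by
    rcases (mf ν α).1 hα with a | ⟨η, a, b⟩
    · exact ⟨∅, hν.zero, (rq _ hν.zero).2.2.1 a⟩
    · exact ⟨_, hν.succ hz a, (mf _ α).2 (.inr ⟨η, mem_insert _ _, b⟩)⟩
  have cov2 : ∀ α ∈ fst (R ν), ∃ ξ ∈ ν, α ∈ fst (T ξ) := fun α hα =>
    (cov α hα).imp fun ξ a => ⟨a.1, (tR ξ a.1).2.2.1 a.2⟩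
  refine ⟨R ν, top.1, fun e => notMem_empty _ (e ▸ Rδ _ hν.zero), fun α hα => ?_,
    ⟨ν, hνκ, _, RN, isFunc_graph Rδ, fun α hα => ?_⟩,
    ⟨β, hβ, fun z z1 => ?_, fun j' j1 => ?_⟩, fun α hα => ?_⟩
  · obtain ⟨ξ, a1, a2⟩ := cov α hα
    obtain ⟨z, b1, b2, b3, -⟩ := blk ξ a1
    exact ⟨fst z, mem_img.2 ⟨z, b1, rfl⟩, b2, b3 a2⟩
  · obtain ⟨ξ, a1, a2⟩ := cov α hα
    exact ⟨ξ, _, pair_mem_graph.2 ⟨a1, rfl⟩, (μo.mem (rq ξ a1).1.1).subset_of_mem a2⟩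
  · obtain ⟨ξ, a1, a2⟩ := cov2 _ (top.1.1.2.1 _ z1)
    have a3 := (top.2 ξ a1).2.2.2.2 z z1 a2
    rw [p0 ξ a1] at a3
    exact (ms ξ a1).1 z a3
  · refine ⟨_, Rδ j' j1, fun z z1 z2 z3 => ?_⟩
    have zδ := top.1.1.2.1 _ z1
    obtain ⟨η, hη, a1, a2⟩ := exists_least νo (P := fun η => fst z ∈ fst (T η)) (cov2 _ zδ)
    have a3 : fst z ∉ fst (R j') := fun a => mem_asymm a z2
    have a4 : j' ⊆ η := ((νo.mem hη).notMem_iff_subset (νo.mem j1)).1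
      fun a => a3 ((mf j' _).2 (.inr ⟨η, a, a1⟩))
    have a5 : fst z ∉ fst (R η) := fun a => by
      rcases (mf η _).1 a with a | ⟨η', b1, b2⟩
      · exact a3 ((mf j' _).2 (.inl a))
      · exact mem_irrefl _ (a2 η' (νo.mem_trans b1 hη) b2 b1)
    have a6 := (top.2 η hη).2.2.2.2 z z1 a1
    rw [p0 η hη] at a6
    exact (ms η hη).2 _ a6
      ((((st η hη).2 ((rq η hη).trans hq)).1 z a6).resolve_left a5)
      (z3.mono fun w a => mem_union.2 (.inr (a4 a)))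
  · obtain ⟨ξ, a1, a2⟩ := cov α hα
    obtain ⟨z, -, b2, b3, y, b4, b5⟩ := blk ξ a1
    exact ⟨fst z, b2, y, b4, (δo.mem b2).subset_of_mem (b3 a2), b5⟩

end Pool.Agent.FS.DirCol
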