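import Pool.Agent.FS.DirCol.B

/-! The stationary set that does not reflect. -/

namespace Pool.Agent.FS.DirCol

open ZFSet Pool.Agent.Lib.MP_329f2d_lc Pool.Agent.Lib.MP_a2bc17_lc Pool.Agent.FS.IndexedSquare

set_option synthInstance.maxSize 100000

theorem mainR {N : Set V} (hN : ZFC N) (hc : N.Countable) {κ μ Λ L ν ρ0 c : V} (hμ : Regu N μ)
    (o : Od N μ Λ L) (hκ : κ ∈ μ) (hν : Regu N ν) (hρ0 : Regu N ρ0) (hνρ : ν ∈ ρ0)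
    (hρκ : ρ0 ∈ κ) (cN : c ∈ N) (cf : IsFunc (prod Λ Λ) ν c) (sa : SubaddL c L ν)
    (su : StrUnbL N c Λ L ν) :
    ∃ Q ∈ N, Po Q ∧ DirCl N Q μ ∧ (∃ H, Generic N Q H) ∧
      ∀ H, Generic N Q H → ¬ DeltaRefl (Ext N H) κ μ := by
  have hz : ZF N := hN.1.1
  have ho := hμ.ord
  have hθ := hz.opair o.hΛ o.hL
  have κo := ho.mem hκ
  have hνκ : ν ∈ κ := κo.mem_trans hνρ hρκ
  have hνμ := ho.mem_trans hνκ hκ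
  obtain ⟨ν', n1, hνc, A, hA, hAl, n3⟩ := const_alg hz ho hμ.1.1 (hμ.succ hz hνμ)
  have hν' : ν' ∈ κ := hνc.2.1.mem_of_subset_of_mem κo n1
    (κo.mem_trans (hρ0.succ hz hνρ) hρκ)
  obtain ⟨Q, hQ⟩ := exists_R hN hμ hθ
  refine ⟨Q, hQ.mem, hQ.po, hQ.dirCl hz hμ, ?_, fun H hH hD => ?_⟩
  · obtain ⟨z, hz'⟩ : ∃ z, z ∈ Q := by
      by_contra h
      exact hQ.po.1 ((eq_empty Q).2 fun y hy => h ⟨y, hy⟩)
    obtain ⟨p, q, -, hp, -⟩ := hQ.po.2.1 z hz'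
    exact (exists_generic hc hQ.po hp).imp fun _ h => h.1
  have hE := ext_zfc hz hQ.mem hQ.po hH hN
  have ez : ZF (Ext N H) := hE.1.1
  have sub := subset_ext hz hQ.mem hQ.po hH
  have nn := fun {a b f} => no_newR (a := a) (b := b) (f := f) hN hμ hθ hQ hH hc
  have hκN := hz.mem hκ hμ.1.1
  have hZ := tm1 (K := ZF) (t := fun _ H => ⋃₀ img snd H) ez (self_mem_ext hz hQ.mem hQ.po hH)
  have Zi := fun {r γ} => Z_iffR (r := r) (γ := γ) hQ hH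
  have lg := fun {δ} => longR (δ := δ) hN hμ hQ hH
  generalize hZd : (⋃₀ img snd H : V) = Z at hZ Zi
  have gθ : ∀ δ ∈ μ, ∃ β ∈ Λ, ∀ z ∈ Z, fst z ∈ δ → snd z ∈ Λ ∧ pair (snd z) β ∈ L :=
    fun δ hδ => by
    obtain ⟨r, hr, c0, c1⟩ := lg hδ
    obtain ⟨β, b1, b2⟩ := o.ub hN hμ c0
    exact ⟨β, b1, fun z a1 a2 => ⟨by simpa using c0.val ((Zi hr (c1 a2)).1 a1),
      b2 z ((Zi hr (c1 a2)).1 a1)⟩⟩
  have hS := (cls6 (K := ZF) (S := fun M Z κ ν c Λ L δ => δ ≠ ∅ ∧ Unb (img fst Z) δ ∧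
    CofLt M δ κ ∧ ∃ β ∈ Λ, (∀ z ∈ Z, fst z ∈ δ → pair (snd z) β ∈ L) ∧
    ∀ j ∈ ν, ∃ a ∈ δ, ∀ z ∈ Z, fst z ∈ δ → a ∈ fst z → ¬ ColLe c (snd z) β j) ez hZ
    (sub hκN) (sub hν.1.1) (sub cN) (sub o.hΛ) (sub o.hL)).sep ez (sub hμ.1.1)
  set S := ZFSet.sep _ μ with hSd
  have Sm : ∀ δ, δ ∈ S ↔ δ ∈ μ ∧ δ ≠ ∅ ∧ Unb (img fst Z) δ ∧ CofLt (Ext N H) δ κ ∧
      ∃ β ∈ Λ, (∀ z ∈ Z, fst z ∈ δ → pair (snd z) β ∈ L) ∧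
      ∀ j ∈ ν, ∃ a ∈ δ, ∀ z ∈ Z, fst z ∈ δ → a ∈ fst z → ¬ ColLe c (snd z) β j :=
    fun δ => mem_sep
  have st : Stat (Ext N H) S μ := by
    intro C hC hcl
    obtain ⟨f, hf, f1, fd, f2⟩ := Cls2.choice (W := Ext N H) hE.1 (R := fun α y => y ∈ C ∧ α ∈ y)
      (cls1 (K := ZF) (S := fun _ C z => snd z ∈ C ∧ fst z ∈ snd z) ez hC) (sub hμ.1.1)
      fun α hα => by
        obtain ⟨β, a1, -, a2⟩ := hcl.2.1 α hα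
        exact ⟨β, ez.mem a1 hC, a1, a2⟩
    obtain ⟨F, hF, hn, hv⟩ := exists_funNm hz hQ.mem hQ.po hH hc hμ.1.1 hμ.1.1 hf f1
    obtain ⟨p, hp, h1⟩ := total_belowR hN hQ hH hμ.1.1 hμ.1.1 hF hn fun x hx =>
      ⟨_, hcl.1 (f2 x hx).1, (hv x hx _ (hcl.1 (f2 x hx).1)).1 (f1.pair_ap (fd ▸ hx))⟩
    obtain ⟨r, hr, c0, c1, c2, c3, ⟨β, c41, c42, c4⟩, c5⟩ := meetR hN hQ hH (cls6 (K := ZF)
      (S := fun M κ ν F c Λ L r => fst r ≠ ∅ ∧ Unb (img fst (snd r)) (fst r) ∧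
        CofLt M (fst r) κ ∧ (∃ β ∈ Λ, (∀ z ∈ snd r, pair (snd z) β ∈ L) ∧
        ∀ j ∈ ν, ∃ a ∈ fst r, ∀ z ∈ snd r, a ∈ fst z → ¬ ColLe c (snd z) β j) ∧
        ∀ α ∈ fst r, ∃ α' ∈ fst r, ∃ y ∈ fst r, α ⊆ α' ∧ In3 F r α' y) hz hκN hν.1.1 hF cN
        o.hΛ o.hL) hp
      fun q hq => denseR hN hμ o hQ hν hρ0 hνρ (ho.mem_trans hρκ hκ) hνκ cN cf sa su hF
        (fun r r' x y a b => hn.mono _ _ _ _ a ((hQ.iff _ _).2 b))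
        (Generic.mem hz hQ.mem hH hp) h1 hq
    have rμ := c0.1.1
    refine ⟨fst r, (Sm _).2 ⟨rμ, c1, fun α hα => ?_, ?_, β, c41,
      fun z a1 a2 => c42 z ((Zi hr a2).1 a1), fun j hj => (c4 j hj).imp fun a b =>
      ⟨b.1, fun z a1 a2 => b.2 z ((Zi hr a2).1 a1)⟩⟩, hcl.2.2 _ rμ c1 fun α hα => ?_⟩
    · obtain ⟨_, a0, a2, a3⟩ := c2 α hα
      obtain ⟨z, a1, rfl⟩ := mem_img.1 a0
      exact ⟨_, mem_img.2 ⟨z, (Zi hr a2).2 a1, rfl⟩, a2, a3⟩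
    · obtain ⟨τ, a1, g, a2, a3⟩ := c3
      exact ⟨τ, a1, g, sub a2, a3⟩
    · obtain ⟨α', a1, y, a2, a3, a4⟩ := c5 α hα
      have a5 := f1.ap_eq ((hv _ (ho.mem_trans a1 rμ) _ (ho.mem_trans a2 rμ)).2 ⟨r, hr, a4⟩)
      have a6 := f2 _ (ho.mem_trans a1 rμ)
      rw [a5] at a6
      exact ⟨y, a6.1, a2, ((ho.mem rμ).mem hα).mem_of_subset_of_mem ((ho.mem rμ).mem a2) a3 a6.2⟩
  have hνμ' := ho.mem_trans hν' hκ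
  obtain ⟨B, hB, B1, ρ, hρ, B2, ⟨f, hf, f1, f2⟩, B3⟩ := hD ν' hν' ⟨sub hνc.1, hνc.2.1,
    fun α hα ⟨f, hf, h⟩ => hνc.2.2 α hα ⟨f, nn (ho.mem_trans hα hνμ') hνc.1 hf h.1, h⟩⟩
    S hS (fun δ a => ((Sm δ).1 a).1) st (fun δ a => ((Sm δ).1 a).2.2.2.1) A (sub hA) hAl
  have hρμ := ho.mem_trans hρ hκ
  have fN : f ∈ N := nn hρμ hμ.1.1 hf ⟨fun z a => by
    obtain ⟨x, a1, y, a2, rfl⟩ := mem_prod.1 (f1.1.1 a)
    exact pair_mem_prod.2 ⟨a1, B1.1 a2⟩, f1.1.2⟩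
  have δμ : (⋃₀ B : V) ∈ μ := by
    obtain ⟨m, hm, hm'⟩ := hμ.bdd hρμ (t := fun x => ap f x)
      (tm2 (K := ZF) (t := fun _ f ρ => graph (fun x => ap f x) ρ) hz fN (hz.mem hρμ hμ.1.1))
      fun x hx => B1.1 (isFunc_ap f1.1 hx).2
    refine sUnion_mem ho hm fun x hx => ⟨B1.1 hx, ?_⟩
    obtain ⟨ξ, hξ, rfl⟩ := f1.ap hx
    exact hm' ξ hξ
  have δo := ho.mem δμ
  have δN := hz.mem δμ hμ.1.1
  have lim : ∀ β ∈ (⋃₀ B : V), insert β β ∈ (⋃₀ B : V) := fun β hβ => by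
    obtain ⟨x, hx, a⟩ := mem_sUnion.1 hβ
    obtain ⟨ξ, hξ, rfl⟩ := f1.ap hx
    have s1 := B2.succ ez hξ
    exact mem_sUnion.2 ⟨_, (isFunc_ap f1.1 s1).2, succ_mem_of_ord
      (ho.mem (B1.1 (isFunc_ap f1.1 s1).2))
      (f2 _ _ _ _ (isFunc_ap f1.1 hξ).1 (isFunc_ap f1.1 s1).1 (mem_insert _ _)) a⟩
  have νρ : ν ∈ ρ := mem_of_otp B2.ord hν.ord f1 (fun x a => ho.mem (B1.1 a)) f2 (n3 B B1)
  have big : Big (Ext N H) (⋃₀ B) ν := big_of_incr hE B2 νρ hf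
    (fun x hx => ho.mem (B1.1 (isFunc_ap f1.1 hx).2))
    (fun y hy x hx => f2 _ _ _ _ (isFunc_ap f1.1 (B2.ord.mem_trans hx hy)).1
      (isFunc_ap f1.1 hy).1 hx)
    fun z => ⟨fun a => by
      obtain ⟨x, hx, a⟩ := mem_sUnion.1 a
      obtain ⟨ξ, hξ, rfl⟩ := f1.ap hx
      exact ⟨ξ, hξ, a⟩, fun ⟨x, hx, a⟩ => mem_sUnion.2 ⟨_, (isFunc_ap f1.1 hx).2, a⟩⟩
  generalize (⋃₀ B : V) = δ at *
  by_cases hu : Unb (img fst Z) δ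
  · obtain ⟨β, βθ, βu⟩ := gθ δ δμ
    have βE := sub (hz.mem βθ o.hΛ)
    obtain ⟨i, hi, hX⟩ := pigeon' hE big δo (sub δN) (sub hν.1.1) hZ (sub cN) βE hu
      fun z a1 a2 => colLe_total cf (βu z a1 a2).1 βθ
    have XE := tm1 (K := ZF) (t := fun _ X => img fst X) ez ((cls3 (K := ZF)
      (S := fun _ c β i z => ColLe c (snd z) β i) ez (sub cN) βE
      (sub (hz.mem hi hν.1.1))).sep ez hZ)
    obtain ⟨γ, g1, g2⟩ := B3 _ ((cls1 (K := ZF) (S := fun _ Y γ =>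
      (∃ β ∈ Y, γ = insert β β) ∨ Unb Y γ) ez XE).sep ez (sub δN))
      (club_acc δo lim fun α hα => by
        obtain ⟨z, a1, a2, a3, a4⟩ := hX α hα
        exact ⟨_, mem_img.2 ⟨z, mem_sep.2 ⟨a1, a4⟩, rfl⟩, a2, a3⟩)
    obtain ⟨γμ, -, s1, -, β', s3, s4, s2⟩ := (Sm γ).1 (mem_inter.1 g1).1
    have γδ := (mem_sep.1 g2).1
    rcases (mem_sep.1 g2).2 with ⟨_, -, rfl⟩ | a
    · exact not_unb_succ s1
    · obtain ⟨b, b0, b3, b4⟩ := o.up2 hN hμ βθ s3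
      obtain ⟨i1, a1, a2⟩ := colLe_total cf βθ b0
      obtain ⟨i2, a3, a4⟩ := colLe_total cf s3 b0
      have u := union_mem hν.ord (union_mem hν.ord hi a1) a3
      obtain ⟨a0, b1, b2⟩ := s2 _ u
      obtain ⟨_, z0, z2, z3⟩ := a a0 b1
      obtain ⟨z, z1, rfl⟩ := mem_img.1 z0
      obtain ⟨z4, z5⟩ := mem_sep.1 z1
      exact b2 z z4 z2 z3 ((sa _ β' b (s4 z z4 z2) b4 _ u
        (a4.mono fun w a => mem_union.2 (.inr a))).2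
        ((sa _ β b (βu z z4 (δo.mem_trans z2 γδ)).2 b3 _ u
          (a2.mono fun w a => mem_union.2 (.inl (mem_union.2 (.inr a))))).1
          (z5.mono fun w a => mem_union.2 (.inl (mem_union.2 (.inl a))))))
  · simp only [Unb, not_forall] at hu
    obtain ⟨α, hα, hu⟩ := hu
    obtain ⟨γ, g1, g2⟩ := B3 _ ((cls1 (K := ZF) (S := fun _ α γ => α ∈ γ) ez
      (sub (hz.mem hα δN))).sep ez (sub δN)) (club_tail δo lim hα)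
    obtain ⟨β, a1, a2, a3⟩ := ((Sm γ).1 (mem_inter.1 g1).1).2.2.1 α (mem_sep.1 g2).2
    exact hu ⟨β, a1, δo.mem_trans a2 (mem_sep.1 g2).1, a3⟩

end Pool.Agent.FS.DirCol
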