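import Pool.Agent.FS.IndexedSquare.Defs

/-! Subadditive strongly unbounded colourings of a directed order `(Λ, L)`. -/

namespace Pool.Agent.FS.DirCol

open ZFSet Pool.Agent.Lib.MP_329f2d_lc Pool.Agent.Lib.MP_a2bc17_lc Pool.Agent.FS.IndexedSquare

/-- Every function of `M` from `X` to `Λ` has an `L`-upper bound. -/
def Bnd (M : Set V) (Λ L X : V) : Prop :=
  ∀ f ∈ M, IsFunc X Λ f → ∃ b ∈ Λ, ∀ x y, pair x y ∈ f → pair y b ∈ L

/-- Both subadditivity inequalities along `L`-chains `α, β, γ`. -/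
def SubaddL (c L ν : V) : Prop :=
  ∀ α β γ, pair α β ∈ L → pair β γ ∈ L → ∀ i ∈ ν,
    ColLe c β γ i → (ColLe c α β i ↔ ColLe c α γ i)

/-- On the `L`-pairs of every set of `M` that is cofinal in `Λ` the colours are unbounded in `ν`. -/
def StrUnbL (M : Set V) (c Λ L ν : V) : Prop :=
  ∀ X ∈ M, X ⊆ Λ → (∀ a ∈ Λ, ∃ x ∈ X, pair a x ∈ L) →
    ∀ i ∈ ν, ∃ β ∈ X, ∃ α ∈ X, pair α β ∈ L ∧ ¬ ColLe c α β i

end Pool.Agent.FS.DirCol
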