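import Pool.Agent.FS.DirCol.P

/-! The splitting argument on a directed order. -/

namespace Pool.Agent.FS.DirCol

open ZFSet Pool.Agent.Lib.MP_329f2d_lc Pool.Agent.Lib.MP_a2bc17_lc Pool.Agent.FS.IndexedSquare

set_option synthInstance.maxSize 100000

variable {N : Set V} {μ Λ L : V}

theorem bnd_restrict (hz : ZF N) {X Y f : V} (hX : X ∈ N) (hf : f ∈ N) (hXY : X ⊆ Y)
    (ff : IsFunc Y Λ f) (h : Bnd N Λ L X) : ∃ b ∈ Λ, ∀ x ∈ X, pair (ap f x) b ∈ L := by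
  obtain ⟨b, b1, b2⟩ := h _ (tm2 (K := ZF) (t := fun _ k τ => graph (fun x => ap k x) τ) hz hf hX)
    (isFunc_graph fun x hx => (isFunc_ap ff (hXY hx)).2)
  exact ⟨b, b1, fun x hx => b2 x _ (pair_mem_graph.2 ⟨hx, rfl⟩)⟩

theorem bnd_of {X : V} (h : ∀ f ∈ N, IsFunc X Λ f → ∃ b ∈ Λ, ∀ x ∈ X, pair (ap f x) b ∈ L) :
    Bnd N Λ L X := fun f hf ff => (h f hf ff).imp fun _ a => ⟨a.1, fun x y c => by
  rw [← isFunc_ap_eq ff c]; exact a.2 x (pair_mem_prod.1 (ff.1 c)).1⟩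

/-- `U` meets every set `T X`, `X ∈ 𝒮`. -/
def Ps (S T U : V) : Prop := ∀ X ∈ S, ∃ β ∈ U, pair X β ∈ T

/-- The elements of `U` above `z` in `D`, and the others. -/
noncomputable def up (D U z : V) : V := ZFSet.sep (fun β => pair z β ∈ D) U

/-- The elements of `U` not above `z` in `D`. -/
noncomputable def dn (D U z : V) : V := ZFSet.sep (fun β => pair z β ∉ D) U

section
variable {K : Set V → Prop} [Cl K] {Γ : Type} [Countable Γ]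
  (r s t : Set V → (Γ → V) → V) [Tm K r] [Tm K s] [Tm K t]
instance df_Ps : Df K fun W v => Ps (r W v) (s W v) (t W v) := by unfold Ps; infer_instance
instance tm_up : Tm K fun W v => up (r W v) (s W v) (t W v) := by unfold up; infer_instance
instance tm_dn : Tm K fun W v => dn (r W v) (s W v) (t W v) := by unfold dn; infer_instance
end

theorem kur (hN : ZFC N) (hμ : Regu N μ) (o : Od N μ Λ L) {c ν j A : V}
    (hc : c ∈ N) (hA : A ∈ N) (hj : j ∈ ν) (jN : j ∈ N) (sa : SubaddL c L ν)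
    (su : StrUnbL N c Λ L ν) (hA1 : ∀ m ∈ Λ, Cd N μ (pair Λ L) (ap A m)) :
    ∃ X ∈ N, X ⊆ Λ ∧ ∃ w ∈ Λ, (∀ m ∈ X, ∀ γ ∈ snd (ap A m), pair (snd γ) w ∈ L) ∧
      ∀ β ∈ Λ, pair w β ∈ L → ∃ m ∈ X, ∀ γ ∈ snd (ap A m), pair m (snd γ) ∈ L →
        ¬ ColLe c (snd γ) β j := by
  by_contra hcon
  have hz : ZF N := hN.1.1
  have ho := hμ.ord
  have ΛN := o.hΛ
  have LN := o.hL
  have vΛ : ∀ m ∈ Λ, ∀ γ ∈ snd (ap A m), snd γ ∈ Λ := fun m hm γ a => by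
    simpa using (hA1 m hm).val a
  obtain ⟨pw, w1, w2⟩ := hN.2 Λ ΛN
  have SN := (cls2 (K := ZF) (S := fun W Λ L X => X ⊆ Λ ∧ Bnd W Λ L X) hz ΛN LN).sep hz w1
  set S := ZFSet.sep _ pw with hSd
  have Si : ∀ X, X ∈ S ↔ X ∈ N ∧ X ⊆ Λ ∧ Bnd N Λ L X := fun X =>
    ⟨fun a => ⟨hz.mem a SN, (mem_sep.1 a).2⟩, fun a => mem_sep.2 ⟨w2 X a.1 a.2.1, a.2⟩⟩
  clear_value S
  have DN := (cls3 (K := ZF) (S := fun _ L c j z => z ∈ L ∧ ColLe c (fst z) (snd z) j) hz LN hc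
    jN).sep hz LN
  set D := ZFSet.sep _ L with hDd
  have Di : ∀ x β, pair x β ∈ D ↔ pair x β ∈ L ∧ ColLe c x β j := fun x β => by
    simp only [hDd, mem_sep, fst_pair, snd_pair]; tauto
  clear_value D
  have TN := (cls3 (K := ZF) (S := fun _ A L D z => ∀ m ∈ fst z, ∃ γ ∈ snd (ap A m),
    pair m (snd γ) ∈ L ∧ pair (snd γ) (snd z) ∈ D) hz hA LN DN).sep hz
    (tm2 (K := ZF) (t := fun _ S Λ => prod S Λ) hz SN ΛN)
  set T := ZFSet.sep _ (prod S Λ) with hTd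
  have Ti : ∀ X β, pair X β ∈ T ↔ (X ∈ S ∧ β ∈ Λ) ∧ ∀ m ∈ X, ∃ γ ∈ snd (ap A m),
      pair m (snd γ) ∈ L ∧ pair (snd γ) β ∈ D := fun X β => by
    simp only [hTd, mem_sep, fst_pair, snd_pair, pair_mem_prod]
  clear_value T
  have anti : ∀ {X Y β}, X ∈ S → X ⊆ Y → pair Y β ∈ T → pair X β ∈ T := fun a b t =>
    (Ti _ _).2 ⟨⟨a, ((Ti _ _).1 t).1.2⟩, fun m hm => ((Ti _ _).1 t).2 m (b hm)⟩
  have dd : ∀ {u x β}, pair u x ∈ L → pair x β ∈ D → (pair u x ∈ D ↔ pair u β ∈ D) :=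
    fun a b => by
      have e := sa _ _ _ a ((Di _ _).1 b).1 j hj ((Di _ _).1 b).2
      rw [Di, Di]
      exact ⟨fun t => ⟨o.tr a ((Di _ _).1 b).1, e.1 t.2⟩, fun t => ⟨a, e.2 t.2⟩⟩
  have one : ∀ m ∈ Λ, ({m} : V) ∈ S := fun m hm =>
    (Si _).2 ⟨hz.singleton (hz.mem hm ΛN), fun z a => by rwa [mem_singleton.1 a],
      bnd_of fun f hf ff => by
        have a := (isFunc_ap ff (mem_singleton.2 rfl)).2
        obtain ⟨b, b1, b2, -⟩ := o.up2 hN hμ a a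
        exact ⟨b, b1, fun x hx => by rwa [mem_singleton.1 hx]⟩⟩
  have two : ∀ X ∈ S, ∀ Y ∈ S, X ∪ Y ∈ S := fun X hX Y hY => by
    obtain ⟨x1, x2, x3⟩ := (Si _).1 hX
    obtain ⟨y1, y2, y3⟩ := (Si _).1 hY
    refine (Si _).2 ⟨tm2 (K := ZF) (t := fun _ X Y => X ∪ Y) hz x1 y1,
      fun z a => (mem_union.1 a).elim (fun a => x2 a) (fun a => y2 a), bnd_of fun f hf ff => ?_⟩
    obtain ⟨b, b1, b2⟩ := bnd_restrict hz x1 hf (fun z a => mem_union.2 (.inl a)) ff x3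
    obtain ⟨d, d1, d2⟩ := bnd_restrict hz y1 hf (fun z a => mem_union.2 (.inr a)) ff y3
    obtain ⟨e, e1, e2, e3⟩ := o.up2 hN hμ b1 d1
    exact ⟨e, e1, fun x hx => (mem_union.1 hx).elim (fun a => o.tr (b2 x a) e2)
      fun a => o.tr (d2 x a) e3⟩
  have top : Ps S T Λ := fun X hX => by
    obtain ⟨x1, x2, x3⟩ := (Si _).1 hX
    obtain ⟨w, a1, a2⟩ := bdM hN x1 x3 (P := fun m w => ∀ γ ∈ snd (ap A m), pair (snd γ) w ∈ L)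
      (cls3 (K := ZF) (S := fun _ Λ L A z => snd z ∈ Λ ∧ ∀ γ ∈ snd (ap A (fst z)),
        pair (snd γ) (snd z) ∈ L) hz ΛN LN hA) ΛN (fun m hm => o.ub hN hμ (hA1 m (x2 hm)))
      fun m w w' a b γ e => o.tr (a γ e) b
    by_contra h
    refine hcon ⟨X, x1, x2, w, a1, a2, fun β b1 b2 => ?_⟩
    by_contra h2
    refine h ⟨β, b1, (Ti _ _).2 ⟨⟨hX, b1⟩, fun m hm => ?_⟩⟩
    by_contra h3
    exact h2 ⟨m, hm, fun γ c1 c2 c3 =>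
      h3 ⟨γ, c1, c2, (Di _ _).2 ⟨o.tr (a2 m hm γ c1) b2, c3⟩⟩⟩
  have lev : ∀ U ∈ N, Ps S T U → ∀ m ∈ Λ, ∃ z ∈ Λ, pair m z ∈ L ∧ Ps S T (up D U z) :=
    fun U UN hU m hm => by
    by_contra h
    have q := hA1 m hm
    have aN := hz.mem q.1 hμ.1.1
    obtain ⟨k, hk, -, -, k2⟩ := Cls2.choice (W := N) hN.1
      (R := fun ι X => X ∈ S ∧ ∀ γ ∈ snd (ap A m), fst γ = ι → pair m (snd γ) ∈ L →
        ∀ β ∈ U, pair X β ∈ T → pair (snd γ) β ∉ D)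
      (cls7 (K := ZF) (S := fun _ S q m L U T D z => snd z ∈ S ∧ ∀ γ ∈ snd q, fst γ = fst z →
        pair m (snd γ) ∈ L → ∀ β ∈ U, pair (snd z) β ∈ T → pair (snd γ) β ∉ D)
        hz SN q.mem (hz.mem hm ΛN) LN UN TN DN) aN fun ι _ => by
        by_cases e : ∃ γ ∈ snd (ap A m), fst γ = ι ∧ pair m (snd γ) ∈ L
        · obtain ⟨γ, g1, g2, g3⟩ := e
          have : ¬ Ps S T (up D U (snd γ)) := fun a => h ⟨_, vΛ m hm γ g1, g3, a⟩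
          simp only [Ps, not_forall] at this
          obtain ⟨X, x1, x2⟩ := this
          refine ⟨X, hz.mem x1 SN, x1, fun γ' c1 c2 _ β c3 c4 c5 => x2 ⟨β, mem_sep.2 ⟨c3, ?_⟩, c4⟩⟩
          rwa [(q.2.2.2.2.2 γ g1 γ' c1).1 (g2.trans c2.symm)]
        · exact ⟨{m}, hz.mem (one m hm) SN, one m hm, fun γ c1 c2 c3 => absurd ⟨γ, c1, c2, c3⟩ e⟩
    have YN := tm2 (K := ZF) (t := fun _ k a => ⋃₀ img (fun ι => ap k ι) a) hz hk aN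
    have sb : ∀ ι ∈ fst (ap A m), ap k ι ⊆ ⋃₀ img (fun ι => ap k ι) (fst (ap A m)) :=
      fun ι hι z a => mem_sUnion.2 ⟨_, mem_img.2 ⟨ι, hι, rfl⟩, a⟩
    have YS : (⋃₀ img (fun ι => ap k ι) (fst (ap A m)) : V) ∈ S := by
      refine (Si _).2 ⟨YN, fun z a => ?_, bnd_of fun f hf ff => ?_⟩
      · obtain ⟨_, a1, a2⟩ := mem_sUnion.1 a
        obtain ⟨ι, hι, rfl⟩ := mem_img.1 a1
        exact ((Si _).1 (k2 ι hι).1).2.1 a2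
      · obtain ⟨b, b1, b2⟩ := bdM hN aN (o.small q.1)
          (P := fun ι w => ∀ x ∈ ap k ι, pair (ap f x) w ∈ L)
          (cls4 (K := ZF) (S := fun _ Λ L k f z => snd z ∈ Λ ∧ ∀ x ∈ ap k (fst z),
            pair (ap f x) (snd z) ∈ L) hz ΛN LN hk hf) ΛN
          (fun ι hι => bnd_restrict hz ((Si _).1 (k2 ι hι).1).1 hf (sb ι hι) ff
            ((Si _).1 (k2 ι hι).1).2.2) fun m w w' a b γ e => o.tr (a γ e) b
        refine ⟨b, b1, fun x a => ?_⟩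
        obtain ⟨_, a1, a2⟩ := mem_sUnion.1 a
        obtain ⟨ι, hι, rfl⟩ := mem_img.1 a1
        exact b2 ι hι x a2
    obtain ⟨β, b1, b2⟩ := hU _ (two _ YS _ (one m hm))
    obtain ⟨γ, g1, g2, g3⟩ := ((Ti _ _).1 b2).2 m (mem_union.2 (.inr (mem_singleton.2 rfl)))
    have gι := q.2.1 γ g1
    exact (k2 _ gι).2 γ g1 rfl g2 β b1
      (anti (k2 _ gι).1 (fun z a => mem_union.2 (.inl (sb _ gι a))) b2) g3
  have split : ∀ U ∈ N, Ps S T U → ∃ z ∈ Λ, Ps S T (up D U z) ∧ Ps S T (dn D U z) :=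
    fun U UN hU => by
    by_contra h
    obtain ⟨β, b1, α, b2, b3, b4⟩ := su _ ((cls4 (K := ZF) (S := fun _ S T D U z =>
        ¬ Ps S T (dn D U z)) hz SN TN DN UN).sep hz ΛN) (fun z a => (mem_sep.1 a).1)
      (fun m hm => by
        obtain ⟨z, z1, z2, z3⟩ := lev U UN hU m hm
        exact ⟨z, mem_sep.2 ⟨z1, fun a => h ⟨z, z1, z3, a⟩⟩, z2⟩) j hj
    have c1 := (mem_sep.1 b1).2
    have c2 := (mem_sep.1 b2).2
    simp only [Ps, not_forall] at c1 c2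
    obtain ⟨X, x1, x2⟩ := c1
    obtain ⟨Y, y1, y2⟩ := c2
    obtain ⟨γ, g1, g2⟩ := hU _ (two _ x1 _ y1)
    have d1 : pair β γ ∈ D := by
      by_contra e
      exact x2 ⟨γ, mem_sep.2 ⟨g1, e⟩, anti x1 (fun z a => mem_union.2 (.inl a)) g2⟩
    have d2 : pair α γ ∈ D := by
      by_contra e
      exact y2 ⟨γ, mem_sep.2 ⟨g1, e⟩, anti y1 (fun z a => mem_union.2 (.inr a)) g2⟩
    exact b4 ((Di _ _).1 ((dd b3 d1).2 d2)).2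
  obtain ⟨f, fN, f1, f2⟩ := seqrec hN ho hμ.1.1 ΛN
    (P := fun s z => ∃ x ∈ Λ, (∀ p ∈ s, pair (snd p) x ∈ L) ∧
      Ps S T (up D (up D Λ x) z) ∧ Ps S T (dn D (up D Λ x) z))
    (cls6 (K := ZF) (S := fun _ μ Λ L S T D w => (∃ a ∈ μ, IsFunc a Λ (fst w)) → snd w ∈ Λ ∧
      ∃ x ∈ Λ, (∀ p ∈ fst w, pair (snd p) x ∈ L) ∧
      Ps S T (up D (up D Λ x) (snd w)) ∧ Ps S T (dn D (up D Λ x) (snd w)))
      hz hμ.1.1 ΛN LN SN TN DN) fun a ha s hs fs => by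
      obtain ⟨b, b1, b2⟩ := o.small ha s hs fs
      obtain ⟨x, x1, x2, x3⟩ := lev Λ ΛN top b b1
      obtain ⟨z, z1, z2⟩ := split _ (tm3 (K := ZF) (t := fun _ D Λ x => up D Λ x) hz DN ΛN
        (hz.mem x1 ΛN)) x3
      refine ⟨z, z1, x, x1, fun p hp => ?_, z2⟩
      obtain ⟨u, -, v, -, rfl⟩ := mem_prod.1 (fs.1 hp)
      rw [snd_pair]
      exact o.tr (b2 u v hp) x2
  obtain ⟨δ, d1, d2⟩ := o.dir μ (mem_insert _ _) f fN f1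
  have q := hA1 δ d1
  have aN := hz.mem q.1 hμ.1.1
  obtain ⟨m0, m1, m2⟩ := bdd_rel hN hμ q.1
    (P := fun ι n => ∀ γ ∈ snd (ap A δ), fst γ = ι → ∀ γ' ∈ snd (ap A δ),
      (∃ η ∈ μ, pair (ap f η) (snd γ) ∈ D ∧ pair (ap f η) (snd γ') ∉ D) →
      ∃ η ∈ n, pair (ap f η) (snd γ) ∈ D ∧ pair (ap f η) (snd γ') ∉ D)
    (cls4 (K := ZF) (S := fun _ μ q f D z => snd z ∈ μ ∧ ∀ γ ∈ snd q, fst γ = fst z →
      ∀ γ' ∈ snd q, (∃ η ∈ μ, pair (ap f η) (snd γ) ∈ D ∧ pair (ap f η) (snd γ') ∉ D) →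
      ∃ η ∈ snd z, pair (ap f η) (snd γ) ∈ D ∧ pair (ap f η) (snd γ') ∉ D)
      hz hμ.1.1 q.mem fN DN)
    (fun ι hι => by
      obtain ⟨n, n1, n2⟩ := bdd_rel hN hμ q.1
        (P := fun ι' n => ∀ γ ∈ snd (ap A δ), fst γ = ι → ∀ γ' ∈ snd (ap A δ), fst γ' = ι' →
          (∃ η ∈ μ, pair (ap f η) (snd γ) ∈ D ∧ pair (ap f η) (snd γ') ∉ D) →
          ∃ η ∈ n, pair (ap f η) (snd γ) ∈ D ∧ pair (ap f η) (snd γ') ∉ D)
        (cls5 (K := ZF) (S := fun _ μ q f D ι z => snd z ∈ μ ∧ ∀ γ ∈ snd q, fst γ = ι →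
          ∀ γ' ∈ snd q, fst γ' = fst z →
          (∃ η ∈ μ, pair (ap f η) (snd γ) ∈ D ∧ pair (ap f η) (snd γ') ∉ D) →
          ∃ η ∈ snd z, pair (ap f η) (snd γ) ∈ D ∧ pair (ap f η) (snd γ') ∉ D)
          hz hμ.1.1 q.mem fN DN (hz.mem hι aN))
        (fun ι' _ => by
          by_cases e : ∃ γ ∈ snd (ap A δ), fst γ = ι ∧ ∃ γ' ∈ snd (ap A δ), fst γ' = ι' ∧
              ∃ η ∈ μ, pair (ap f η) (snd γ) ∈ D ∧ pair (ap f η) (snd γ') ∉ D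
          · obtain ⟨γ, g1, g2, γ', g3, g4, η, g5, g6⟩ := e
            refine ⟨_, hμ.succ hz g5, fun u u1 u2 v v1 v2 _ => ⟨η, mem_insert _ _, ?_⟩⟩
            rwa [← (q.2.2.2.2.2 γ g1 u u1).1 (g2.trans u2.symm),
              ← (q.2.2.2.2.2 γ' g3 v v1).1 (g4.trans v2.symm)]
          · exact ⟨∅, hμ.zero, fun u u1 u2 v v1 v2 a => absurd ⟨u, u1, u2, v, v1, v2, a⟩ e⟩)
        fun _ n n' a s u u1 u2 v v1 v2 b => (a u u1 u2 v v1 v2 b).imp fun _ c => ⟨s c.1, c.2⟩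
      exact ⟨n, n1, fun u u1 u2 v v1 => n2 _ (q.2.1 v v1) u u1 u2 v v1 rfl⟩)
    fun _ n n' a s u u1 u2 v v1 b => (a u u1 u2 v v1 b).imp fun _ c => ⟨s c.1, c.2⟩
  obtain ⟨s, ⟨x, -, x2, x3, x4⟩, s2⟩ := f2 m0 m1
  obtain ⟨β1, p1, p2⟩ := x3 _ (one δ d1)
  obtain ⟨β2, q1, q2⟩ := x4 _ (one δ d1)
  obtain ⟨γ1, r1, r2, r3⟩ := ((Ti _ _).1 p2).2 δ (mem_singleton.2 rfl)
  obtain ⟨γ2, t1, t2, t3⟩ := ((Ti _ _).1 q2).2 δ (mem_singleton.2 rfl)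
  have fδ : ∀ η ∈ μ, pair (ap f η) δ ∈ L := fun η hη => d2 η _ (isFunc_ap f1 hη).1
  obtain ⟨η, e1, e2, e3⟩ := m2 _ (q.2.1 γ1 r1) γ1 r1 rfl γ2 t1 ⟨m0, m1,
    (dd (o.tr (fδ m0 m1) r2) r3).2 (mem_sep.1 p1).2,
    fun a => (mem_sep.1 q1).2 ((dd (o.tr (fδ m0 m1) t2) t3).1 a)⟩
  have ημ := ho.mem_trans e1 m1
  have ux : pair (ap f η) x ∈ L := by simpa using x2 _ (s2 η e1)
  exact e3 ((dd (o.tr (fδ η ημ) t2) t3).2 ((dd ux (mem_sep.1 (mem_sep.1 q1).1).2).1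
    ((dd ux (mem_sep.1 (mem_sep.1 p1).1).2).2 ((dd (o.tr (fδ η ημ) r2) r3).1 e2))))

end Pool.Agent.FS.DirCol
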