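import Pool.Agent.FS.DirCol.Defs
import Pool.Agent.FS.IndexedSquare.C2

/-! The forcing that adds an increasing partial function from `μ` to a directed order. -/

namespace Pool.Agent.FS.DirCol

open ZFSet Pool.Agent.Lib.MP_329f2d_lc Pool.Agent.Lib.MP_a2bc17_lc Pool.Agent.FS.IndexedSquare

set_option synthInstance.maxSize 100000

/-- Conditions: an ordinal `a < μ` and an increasing partial function from `a` to the order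
`θ = (Λ, L)`. -/
def Cd (N : Set V) (μ θ q : V) : Prop :=
  fst q ∈ μ ∧ (∀ p ∈ snd q, fst p ∈ fst q) ∧ q = pair (fst q) (snd q) ∧ q ∈ N ∧
    snd q ⊆ prod μ (fst θ) ∧ ∀ p ∈ snd q, ∀ p' ∈ snd q,
      (fst p = fst p' → p = p') ∧ (fst p ∈ fst p' → pair (snd p) (snd p') ∈ snd θ)

/-- End extension. -/
def Lq (N : Set V) (μ θ r q : V) : Prop :=
  Cd N μ θ r ∧ Cd N μ θ q ∧ fst q ⊆ fst r ∧ snd q ⊆ snd r ∧
    ∀ p ∈ snd r, fst p ∈ fst q → p ∈ snd q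

section
variable {K : Set V → Prop} [Cl K] {Γ : Type} [Countable Γ]
  (r s t u : Set V → (Γ → V) → V) [Tm K r] [Tm K s] [Tm K t] [Tm K u]
  (C : Set V → (Γ → V) → Set V) [Dc K C]
instance df_Cd : Df K fun W v => Cd (C W v) (r W v) (s W v) (t W v) := by
  unfold Cd; infer_instance
instance df_Lq : Df K fun W v => Lq (C W v) (r W v) (s W v) (t W v) (u W v) := by
  unfold Lq; infer_instance
instance df_Bnd : Df K fun W v => Bnd (C W v) (r W v) (s W v) (t W v) := by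
  unfold Bnd; infer_instance
end

variable {N : Set V} {μ θ Q H : V}

theorem Cd.mem {q : V} (h : Cd N μ θ q) : q ∈ N := h.2.2.2.1

theorem Cd.val {q p : V} (h : Cd N μ θ q) (hp : p ∈ snd q) : snd p ∈ fst θ := by
  obtain ⟨x, -, y, a, rfl⟩ := mem_prod.1 (h.2.2.2.2.1 hp)
  rwa [snd_pair]

theorem Cd.refl {q : V} (h : Cd N μ θ q) : Lq N μ θ q q :=
  ⟨h, h, fun _ a => a, fun _ a => a, fun _ a _ => a⟩

theorem Lq.trans {p q r : V} (h1 : Lq N μ θ p q) (h2 : Lq N μ θ q r) : Lq N μ θ p r :=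
  ⟨h1.1, h2.2.1, fun _ a => h1.2.2.1 (h2.2.2.1 a), fun _ a => h1.2.2.2.1 (h2.2.2.2.1 a),
    fun γ a b => h2.2.2.2.2 γ (h1.2.2.2.2 γ a (h2.2.2.1 b)) b⟩

theorem Lq.snd_sub {p q : V} (h : Lq N μ θ p q) : snd q ⊆ snd p := h.2.2.2.1

theorem lb_lq (hN : ZF N) (hμ : Regu N μ) {m m' D : V} (hD : D ∈ N)
    (hm : m ∈ μ) (hm' : m' ∈ μ) (h1 : ∀ q ∈ D, Cd N μ θ q ∧ fst q ⊆ m')
    (h2 : ∀ p ∈ D, ∀ q ∈ D, ∃ r, Lq N μ θ r p ∧ Lq N μ θ r q) :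
    Cd N μ θ (lb m D) ∧ ∀ q ∈ D, Lq N μ θ (lb m D) q := by
  have hc : Cd N μ θ (lb m D) := by
    refine ⟨?_, fun γ hγ => ?_, by simp [lb],
      tm2 (K := ZF) (t := fun _ m D => lb m D) hN (hN.mem hm hμ.1.1) hD, fun γ hγ => ?_,
      fun p hp p' hp' => ?_⟩
    · rw [lb, fst_pair]
      refine union_mem hμ.ord hm (sUnion_mem hμ.ord hm' fun x hx => ?_)
      obtain ⟨q, hq, rfl⟩ := mem_img.1 hx
      exact ⟨(h1 q hq).1.1, (h1 q hq).2⟩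
    · obtain ⟨q, hq, hγ⟩ := mem_snd_lb.1 hγ
      exact mem_fst_lb.2 (.inr ⟨q, hq, (h1 q hq).1.2.1 _ hγ⟩)
    · obtain ⟨q, hq, hγ⟩ := mem_snd_lb.1 hγ
      exact (h1 q hq).1.2.2.2.2.1 hγ
    · obtain ⟨q, hq, hp⟩ := mem_snd_lb.1 hp
      obtain ⟨q', hq', hp'⟩ := mem_snd_lb.1 hp'
      obtain ⟨r, b, c⟩ := h2 q hq q' hq'
      exact b.1.2.2.2.2.2 p (b.snd_sub hp) p' (c.snd_sub hp')
  refine ⟨hc, fun q hq => ⟨hc, (h1 q hq).1, fun γ hγ => mem_fst_lb.2 (.inr ⟨q, hq, hγ⟩),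
    fun γ a => mem_snd_lb.2 ⟨q, hq, a⟩, fun γ a hγ => ?_⟩⟩
  obtain ⟨p, hp, a⟩ := mem_snd_lb.1 a
  obtain ⟨r, b, c⟩ := h2 p hp q hq
  exact c.2.2.2.2 γ (b.snd_sub a) hγ

theorem padR (hN : ZF N) (hμ : Regu N μ) {m q : V} (hm : m ∈ μ)
    (hq : Cd N μ θ q) : ∃ r, Lq N μ θ r q ∧ m ⊆ fst r :=
  ⟨lb m {q}, (lb_lq hN hμ (hN.singleton hq.mem) hm hq.1
    (fun p hp => by rw [mem_singleton.1 hp]; exact ⟨hq, fun _ a => a⟩)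
    fun p hp r hr => ⟨q, by rw [mem_singleton.1 hp]; exact hq.refl,
      by rw [mem_singleton.1 hr]; exact hq.refl⟩).2 q (by simp),
    fun _ a => mem_fst_lb.2 (.inl a)⟩

theorem chainR (hN : ZF N) (hμ : Regu N μ) {G p σ : V}
    (hG : G ∈ N) (hp : Cd N μ θ p) (hσ : σ ∈ μ)
    (hs : ∀ ξ ∈ σ, ∀ q, Cd N μ θ q → Lq N μ θ (ap G (pair ξ q)) q) (ξ : V) :
    ξ ∈ insert σ σ →
      Lq N μ θ (Bs G ∅ p ξ) p ∧ ∀ η ∈ ξ, Lq N μ θ (Bs G ∅ p ξ) (PP G ∅ p η) := by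
  induction ξ using ZFSet.inductionOn with
  | _ ξ ih =>
  intro hξ
  have ho := isOrdinal_succ (hμ.ord.mem hσ)
  have hξμ : ξ ∈ μ := hμ.ord.mem_trans hξ (hμ.succ hN hσ)
  have hξN := hN.mem hξμ hμ.1.1
  have he := hN.empty
  have a0 : ∀ η ∈ ξ, η ∈ σ := fun η hη => by
    rcases mem_insert_iff.1 hξ with rfl | h
    exacts [hη, (hμ.ord.mem hσ).mem_trans hη h]
  have a1 : ∀ η ∈ ξ, Lq N μ θ (PP G ∅ p η) (Bs G ∅ p η) := fun η hη => by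
    rw [PP_eq]; exact hs η (a0 η hη) _ (ih η hη (ho.mem_trans hη hξ)).1.1
  have a2 : ∀ η ∈ ξ, Lq N μ θ (PP G ∅ p η) p := fun η hη =>
    (a1 η hη).trans (ih η hη (ho.mem_trans hη hξ)).1
  have a3 : ∀ η ∈ ξ, ∀ η' ∈ η, Lq N μ θ (PP G ∅ p η) (PP G ∅ p η') := fun η hη η' hη' =>
    (a1 η hη).trans ((ih η hη (ho.mem_trans hη hξ)).2 η' hη')
  obtain ⟨m, hm, hm'⟩ := hμ.bdd hξμ (t := fun η => fst (PP G ∅ p η))
    (tm4 (K := ZF) (t := fun _ G e p ξ => graph (fun η => fst (PP G e p η)) ξ) hN hG he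
      hp.mem hξN) fun η hη => (a1 η hη).1.1
  have key := (lb_lq (θ := θ) hN hμ (D := insert p (img (PP G ∅ p) ξ))
    (tm4 (K := ZF) (t := fun _ G e p ξ => insert p (img (fun η => PP G e p η) ξ)) hN hG he
      hp.mem hξN) (ap_mem_of_func hμ.zero isFunc_empty ξ) (union_mem hμ.ord hp.1 hm)
      (fun q hq => ?_) fun q hq r hr => ?_).2
  · exact ⟨key p (mem_insert _ _), fun η hη => key _ (mem_insert_of_mem _ (mem_img.2 ⟨η, hη, rfl⟩))⟩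
  · rcases mem_insert_iff.1 hq with rfl | hq
    · exact ⟨hp, fun _ a => mem_union.2 (.inl a)⟩
    · obtain ⟨η, hη, rfl⟩ := mem_img.1 hq
      exact ⟨(a1 η hη).1, fun _ a => mem_union.2 (.inr (hm' η hη a))⟩
  · rcases mem_insert_iff.1 hq with rfl | hq <;> rcases mem_insert_iff.1 hr with rfl | hr
    · exact ⟨_, hp.refl, hp.refl⟩
    · obtain ⟨η, hη, rfl⟩ := mem_img.1 hr
      exact ⟨_, a2 η hη, (a1 η hη).1.refl⟩
    · obtain ⟨η, hη, rfl⟩ := mem_img.1 hq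
      exact ⟨_, (a1 η hη).1.refl, a2 η hη⟩
    · obtain ⟨η, hη, rfl⟩ := mem_img.1 hq
      obtain ⟨η', hη', rfl⟩ := mem_img.1 hr
      rcases ((hμ.ord.mem hξμ).mem hη).mem_trichotomous ((hμ.ord.mem hξμ).mem hη') with h | rfl | h
      · exact ⟨_, a3 η' hη' η h, (a1 η' hη').1.refl⟩
      · exact ⟨_, (a1 η hη).1.refl, (a1 η hη).1.refl⟩
      · exact ⟨_, (a1 η hη).1.refl, a3 η hη η' h⟩

/-- `Q` is the forcing. -/
structure IsR (N : Set V) (μ θ Q : V) : Prop where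
  mem : Q ∈ N
  po : Po Q
  iff : ∀ r q, pair r q ∈ Q ↔ Lq N μ θ r q

theorem exists_R (hN : ZFC N) (hμ : Regu N μ) (hθ : θ ∈ N) : ∃ Q, IsR N μ θ Q := by
  have hz : ZF N := hN.1.1
  obtain ⟨pw, h1, h2⟩ := hN.2 (prod μ (fst θ))
    (tm2 (K := ZF) (t := fun _ μ θ => prod μ (fst θ)) hz hμ.1.1 hθ)
  have hQ := (cls2 (K := ZF) (S := fun W μ θ z => Lq W μ θ (fst z) (snd z)) hz hμ.1.1
    hθ).sep hz (tm2 (K := ZF) (t := fun _ μ pw => prod (prod μ pw) (prod μ pw)) hz hμ.1.1 h1)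
  set Q := ZFSet.sep _ (prod (prod μ pw) (prod μ pw)) with hQd
  have c : ∀ q, Cd N μ θ q → q ∈ prod μ pw := fun q hq => by
    rw [hq.2.2.1]
    exact pair_mem_prod.2 ⟨hq.1, h2 _ (tm1 (K := ZF) (t := fun _ q => snd q) hz hq.mem)
      hq.2.2.2.2.1⟩
  have hi : ∀ r q, pair r q ∈ Q ↔ Lq N μ θ r q := fun r q => by
    simp only [hQd, mem_sep, fst_pair, snd_pair]
    exact ⟨fun a => a.2, fun a => ⟨pair_mem_prod.2 ⟨c _ a.1, c _ a.2.1⟩, a⟩⟩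
  have c0 : Cd N μ θ (pair ∅ ∅) := ⟨by simpa using hμ.zero, by simp, by simp,
    hz.opair hz.empty hz.empty, by simp, by simp⟩
  refine ⟨Q, hQ, ⟨fun h => notMem_empty _ (h ▸ (hi _ _).2 c0.refl), fun z hz' => ?_,
    fun p q r a b => (hi _ _).2 (((hi _ _).1 a).trans ((hi _ _).1 b))⟩, hi⟩
  obtain ⟨p, -, q, -, rfl⟩ := mem_prod.1 (mem_sep.1 hz').1
  have := (hi _ _).1 hz'
  exact ⟨p, q, rfl, (hi _ _).2 this.1.refl, (hi _ _).2 this.2.1.refl⟩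

theorem IsR.dirCl (hN : ZF N) (hμ : Regu N μ) (hQ : IsR N μ θ Q) :
    DirCl N Q μ := by
  rintro D hD h1 ⟨α, hα, f, hf, ho⟩ h2
  simp only [hQ.iff] at h1 h2 ⊢
  obtain ⟨m, hm, hm'⟩ := hμ.bdd hα (t := fun x => fst (ap f x))
    (tm2 (K := ZF) (t := fun _ f α => graph (fun x => fst (ap f x)) α) hN hf (hN.mem hα hμ.1.1))
    fun x hx => (h1 _ (isFunc_ap ho.1 hx).2).1.1
  obtain ⟨a, b⟩ := lb_lq hN hμ hD hm hm (fun q hq => ⟨(h1 q hq).1, by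
    obtain ⟨x, hx, rfl⟩ := ho.ap hq
    exact hm' x hx⟩) h2
  exact ⟨_, a.refl, b⟩

section
variable (hN : ZFC N) (hμ : Regu N μ) (hθ : θ ∈ N) (hQ : IsR N μ θ Q)
include hN hQ

theorem step_funR {σ : V} (hσ : σ ∈ N) {R : V → V → V → Prop}
    (hR : Cls2 N fun z w => Cd N μ θ (snd z) → R (fst z) (snd z) w)
    (h : ∀ ξ ∈ σ, ∀ q, Cd N μ θ q → ∃ w ∈ N, R ξ q w) :
    ∃ G ∈ N, ∀ ξ ∈ σ, ∀ q, Cd N μ θ q → R ξ q (ap G (pair ξ q)) := by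
  have hz : ZF N := hN.1.1
  obtain ⟨G, h1, -, -, h2⟩ := Cls2.choice (W := N) hN.1 hR
    (tm2 (K := ZF) (t := fun _ σ Q => prod σ (⋃₀ ⋃₀ Q)) hz hσ hQ.mem) fun z hz' => by
      obtain ⟨ξ, hξ, q, -, rfl⟩ := mem_prod.1 hz'
      by_cases hq : Cd N μ θ q
      · obtain ⟨w, a, b⟩ := h ξ hξ q hq
        exact ⟨w, a, fun _ => by simpa using b⟩
      · exact ⟨∅, hz.empty, fun a => absurd (by simpa using a) hq⟩
  refine ⟨G, h1, fun ξ hξ q hq => ?_⟩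
  simpa using h2 (pair ξ q) (pair_mem_prod.2 ⟨hξ, left_mem_sUnion ((hQ.iff _ _).2 hq.refl)⟩)
    (by simpa using hq)

variable (hH : Generic N Q H)
include hH

theorem meetR {S : V → Prop} (hS : Cls N S) {p : V} (hp : p ∈ H)
    (hd : ∀ q, Lq N μ θ q p → ∃ r, Lq N μ θ r q ∧ S r) : ∃ r ∈ H, Lq N μ θ r p ∧ S r := by
  simpa only [hQ.iff] using Generic.meet hN.1.1 hQ.mem hQ.po hH hS hp
    (by simpa only [hQ.iff] using hd)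

theorem total_belowR {F a b : V} (ha : a ∈ N) (hb : b ∈ N) (hF : F ∈ N) (hn : FunNm Q F a b)
    (h : ∀ x ∈ a, ∃ y ∈ b, ∃ r ∈ H, In3 F r x y) :
    ∃ p ∈ H, ∀ q, Lq N μ θ q p → ∀ x ∈ a, ∃ r, Lq N μ θ r q ∧ ∃ y ∈ b, In3 F r x y := by
  obtain ⟨p, hp, h1⟩ := Generic.meet' hN.1.1 hQ.mem hQ.po hH (cls4 (K := ZF)
    (S := fun _ Q F a b p => (∀ q, pair q p ∈ Q → ∀ x ∈ a, ∃ r, pair r q ∈ Q ∧
      ∃ y ∈ b, In3 F r x y) ∨ ∃ x ∈ a, ∀ r, pair r p ∈ Q → ∀ y ∈ b, ¬ In3 F r x y)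
    hN.1.1 hQ.mem hF ha hb) fun p hp => by
      by_cases hc : ∀ q, pair q p ∈ Q → ∀ x ∈ a, ∃ r, pair r q ∈ Q ∧ ∃ y ∈ b, In3 F r x y
      · exact ⟨p, hp, .inl hc⟩
      · push Not at hc
        obtain ⟨q, a1, x, a2, a3⟩ := hc
        exact ⟨q, a1, .inr ⟨x, a2, a3⟩⟩
  rcases h1 with h1 | ⟨x, hx, h1⟩
  · exact ⟨p, hp, by simpa only [hQ.iff] using h1⟩
  · obtain ⟨y, hy, r, hr, h2⟩ := h x hx
    obtain ⟨t, -, a1, a2⟩ := hH.1.meet hp hr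
    exact absurd (hn.mono _ _ _ _ h2 a2) (h1 t a1 y hy)

omit hN in
theorem Z_iffR {r γ : V} (hr : r ∈ H) (hγ : fst γ ∈ fst r) :
    γ ∈ (⋃₀ img snd H : V) ↔ γ ∈ snd r := by
  simp only [mem_sUnion, mem_img]
  refine ⟨?_, fun a => ⟨_, ⟨r, hr, rfl⟩, a⟩⟩
  rintro ⟨_, ⟨q, hq, rfl⟩, a⟩
  obtain ⟨t, -, a1, a2⟩ := hH.1.meet hr hq
  exact ((hQ.iff _ _).1 a1).2.2.2.2 γ (((hQ.iff _ _).1 a2).snd_sub a) hγ

include hμ

theorem longR {δ : V} (hδ : δ ∈ μ) : ∃ r ∈ H, Cd N μ θ r ∧ δ ⊆ fst r := by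
  obtain ⟨p, hp, -⟩ := hH.1.exists_mem
  obtain ⟨r, hr, h0, h⟩ := meetR hN hQ hH (cls1 (K := ZF) (S := fun _ δ r => δ ⊆ fst r) hN.1.1
    (hN.1.1.mem hδ hμ.1.1)) hp fun q hq => padR hN.1.1 hμ hδ hq.1
  exact ⟨r, hr, h0.1, h⟩

include hθ

theorem no_newR (hc : N.Countable) {a b f : V} (ha : a ∈ μ) (hb : b ∈ N) (hf : f ∈ Ext N H)
    (h : IsFunc a b f) : f ∈ N := by
  have hz : ZF N := hN.1.1
  have haN := hz.mem ha hμ.1.1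
  obtain ⟨F, hF, hn, hv⟩ := exists_funNm hz hQ.mem hQ.po hH hc haN hb hf fun x y y' a1 a2 =>
    (h.2 x (pair_mem_prod.1 (h.1 a1)).1).unique a1 a2
  obtain ⟨p, hp, h1⟩ := total_belowR hN hQ hH haN hb hF hn fun x hx =>
    ⟨_, (isFunc_ap h hx).2, (hv x hx _ (isFunc_ap h hx).2).1 (isFunc_ap h hx).1⟩
  have hpN := Generic.mem hz hQ.mem hH hp
  obtain ⟨G, hG, h2⟩ := step_funR hN hQ haN
    (R := fun ξ q w => Lq N μ θ w q ∧ (Lq N μ θ q p → ∃ y ∈ b, In3 F w ξ y))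
    (cls5 (K := ZF) (S := fun W μ θ p b F z => Cd W μ θ (snd (fst z)) →
      Lq W μ θ (snd z) (snd (fst z)) ∧ (Lq W μ θ (snd (fst z)) p →
        ∃ y ∈ b, In3 F (snd z) (fst (fst z)) y)) hz hμ.1.1 hθ hpN hb hF) fun ξ hξ q hq => by
      by_cases h3 : Lq N μ θ q p
      · obtain ⟨r, a1, a2⟩ := h1 q h3 ξ hξ
        exact ⟨r, a1.1.mem, a1, fun _ => a2⟩
      · exact ⟨q, hq.mem, hq.refl, fun a => absurd a h3⟩
  obtain ⟨r, hr, -, h3⟩ := meetR hN hQ hH (cls3 (K := ZF)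
    (S := fun _ F a b r => ∀ x ∈ a, ∃ y ∈ b, In3 F r x y) hz hF haN hb) hp fun q hq => by
      have ch := chainR hz hμ hG hq.1 ha fun ξ hξ q hq => (h2 ξ hξ q hq).1
      refine ⟨_, (ch a (mem_insert _ _)).1, fun x hx => ?_⟩
      have c1 := (ch x (mem_insert_of_mem _ hx)).1
      obtain ⟨y, hy, h4⟩ := (h2 x hx _ c1.1).2 (c1.trans hq)
      rw [← PP_eq] at h4
      exact ⟨y, hy, hn.mono _ _ _ _ h4 ((hQ.iff _ _).2 ((ch a (mem_insert _ _)).2 x hx))⟩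
  convert (cls2 (K := ZF) (S := fun _ F r z => In3 F r (fst z) (snd z)) hz hF
    (Generic.mem hz hQ.mem hH hr)).sep hz (tm2 (K := ZF) (t := fun _ a b => prod a b) hz haN hb)
    using 1
  ext z
  simp only [mem_sep]
  constructor
  · intro hz'
    obtain ⟨x, hx, y, hy, rfl⟩ := mem_prod.1 (h.1 hz')
    obtain ⟨y', a1, a2⟩ := h3 x hx
    rw [(h.2 x hx).unique hz' ((hv x hx y' a1).2 ⟨r, hr, a2⟩)]
    exact ⟨pair_mem_prod.2 ⟨hx, a1⟩, by simpa using a2⟩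
  · rintro ⟨a1, a2⟩
    obtain ⟨x, hx, y, hy, rfl⟩ := mem_prod.1 a1
    exact (hv x hx y hy).2 ⟨r, hr, by simpa using a2⟩

end

/-- The standing hypotheses on the order. -/
structure Od (N : Set V) (μ Λ L : V) : Prop where
  hΛ : Λ ∈ N
  hL : L ∈ N
  tr : ∀ {a b d}, pair a b ∈ L → pair b d ∈ L → pair a d ∈ L
  dir : ∀ a ∈ insert μ μ, Bnd N Λ L a

variable {Λ L : V}

theorem bdL (hN : ZFC N) {a : V} (haN : a ∈ N) (ha : Bnd N Λ L a) {P : V → V → Prop}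
    (hP : Cls2 N fun x m => m ∈ Λ ∧ P x m) (hΛ : Λ ∈ N) (h : ∀ x ∈ a, ∃ m ∈ Λ, P x m) :
    ∃ b ∈ Λ, ∀ x ∈ a, ∃ m ∈ Λ, P x m ∧ pair m b ∈ L := by
  have hz : ZF N := hN.1.1
  obtain ⟨k, hk, -, -, k2⟩ := Cls2.choice (W := N) hN.1 hP haN fun x hx => by
    obtain ⟨m, a1, a2⟩ := h x hx
    exact ⟨m, hz.mem a1 hΛ, a1, a2⟩
  obtain ⟨b, b1, b2⟩ := ha _ (tm2 (K := ZF) (t := fun _ k τ => graph (fun x => ap k x) τ) hz hk haN)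
    (isFunc_graph fun x hx => (k2 x hx).1)
  exact ⟨b, b1, fun x hx => ⟨_, (k2 x hx).1, (k2 x hx).2, b2 x _ (pair_mem_graph.2 ⟨hx, rfl⟩)⟩⟩

theorem bdM (hN : ZFC N) {a : V} (haN : a ∈ N) (ha : Bnd N Λ L a) {P : V → V → Prop}
    (hP : Cls2 N fun x m => m ∈ Λ ∧ P x m) (hΛ : Λ ∈ N) (h : ∀ x ∈ a, ∃ m ∈ Λ, P x m)
    (mono : ∀ x m m', P x m → pair m m' ∈ L → P x m') : ∃ b ∈ Λ, ∀ x ∈ a, P x b :=
  (bdL hN haN ha hP hΛ h).imp fun _ c => ⟨c.1, fun x hx => by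
    obtain ⟨m, -, c1, c2⟩ := c.2 x hx
    exact mono _ _ _ c1 c2⟩

theorem Od.small (h : Od N μ Λ L) {a : V} (ha : a ∈ μ) : Bnd N Λ L a :=
  h.dir a (mem_insert_of_mem _ ha)

theorem Od.up2 (hN : ZFC N) (hμ : Regu N μ) (h : Od N μ Λ L) {y y' : V} (hy : y ∈ Λ)
    (hy' : y' ∈ Λ) : ∃ b ∈ Λ, pair y b ∈ L ∧ pair y' b ∈ L := by
  have hz : ZF N := hN.1.1
  have a2 := hμ.succ hz (hμ.succ hz hμ.zero)
  obtain ⟨b, b1, b2⟩ := bdL hN (hz.mem a2 hμ.1.1) (h.small a2)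
    (P := fun x m => (x = ∅ ∧ m = y) ∨ (x ≠ ∅ ∧ m = y'))
    (cls3 (K := ZF) (S := fun _ Λ y y' z => snd z ∈ Λ ∧
      ((fst z = ∅ ∧ snd z = y) ∨ (fst z ≠ ∅ ∧ snd z = y'))) hz h.hΛ (hz.mem hy h.hΛ)
      (hz.mem hy' h.hΛ)) h.hΛ fun x _ => by
      by_cases e : x = ∅
      exacts [⟨y, hy, .inl ⟨e, rfl⟩⟩, ⟨y', hy', .inr ⟨e, rfl⟩⟩]
  refine ⟨b, b1, ?_, ?_⟩
  · obtain ⟨m, -, ⟨-, rfl⟩ | ⟨e, -⟩, c⟩ := b2 ∅ (mem_insert_of_mem _ (mem_insert _ _))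
    exacts [c, absurd rfl e]
  · obtain ⟨m, -, ⟨e, -⟩ | ⟨-, rfl⟩, c⟩ := b2 _ (mem_insert _ _)
    · have : (∅ : V) ∈ insert (∅ : V) (∅ : V) := mem_insert _ _
      rw [e] at this
      exact absurd this (notMem_empty _)
    · exact c

theorem Od.ne (hN : ZFC N) (hμ : Regu N μ) (h : Od N μ Λ L) : ∃ e, e ∈ Λ :=
  (h.small hμ.zero ∅ hN.1.1.empty isFunc_empty).imp fun _ a => a.1

theorem Od.ub (hN : ZFC N) (hμ : Regu N μ) (h : Od N μ Λ L) {q : V} (hq : Cd N μ (pair Λ L) q) :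
    ∃ b ∈ Λ, ∀ p ∈ snd q, pair (snd p) b ∈ L := by
  have hz : ZF N := hN.1.1
  obtain ⟨b, b1, b2⟩ := bdL hN (hz.mem hq.1 hμ.1.1) (h.small hq.1)
    (P := fun x m => ∀ p ∈ snd q, fst p = x → m = snd p)
    (cls2 (K := ZF) (S := fun _ Λ q z => snd z ∈ Λ ∧ ∀ p ∈ snd q, fst p = fst z → snd z = snd p)
      hz h.hΛ hq.mem) h.hΛ fun x _ => by
      by_cases e : ∃ p ∈ snd q, fst p = x
      · obtain ⟨p, a1, a2⟩ := e
        exact ⟨snd p, by simpa using hq.val a1, fun p' c1 c2 => by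
          rw [(hq.2.2.2.2.2 p a1 p' c1).1 (a2.trans c2.symm)]⟩
      · obtain ⟨e0, he⟩ := h.ne hN hμ
        exact ⟨e0, he, fun p c1 c2 => absurd ⟨p, c1, c2⟩ e⟩
  refine ⟨b, b1, fun p hp => ?_⟩
  obtain ⟨m, -, c1, c2⟩ := b2 _ (hq.2.1 p hp)
  rwa [← c1 p hp rfl]

/-- Recursion along an ordinal. -/
noncomputable def Sq (h : V) : V → V := rrec id fun _ g => ap h g

section
variable {K : Set V → Prop} [Cl K] {Γ : Type} [Countable Γ]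
  (r u : Set V → (Γ → V) → V) [Tm K r] [Tm K u]
instance tm_Sq : Tm K fun W v => Sq (r W v) (u W v) :=
  tm_rrec (fun _ _ x => x) (fun W v _ g => ap (r W v) g) (fun _ _ _ _ => rank_lt_of_mem) u
end

theorem seqrec (hN : ZFC N) {σ : V} (σo : IsOrdinal σ) (hσ : σ ∈ N) (hΛ : Λ ∈ N)
    {P : V → V → Prop} (hP : Cls2 N fun s z => (∃ a ∈ σ, IsFunc a Λ s) → z ∈ Λ ∧ P s z)
    (h : ∀ a ∈ σ, ∀ s ∈ N, IsFunc a Λ s → ∃ z ∈ Λ, P s z) :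
    ∃ f ∈ N, IsFunc σ Λ f ∧ ∀ ξ ∈ σ, ∃ s, P s (ap f ξ) ∧ ∀ η ∈ ξ, pair η (ap f η) ∈ s := by
  have hz : ZF N := hN.1.1
  obtain ⟨pw, h1, h2⟩ := hN.2 _ (tm2 (K := ZF) (t := fun _ σ Λ => prod σ Λ) hz hσ hΛ)
  obtain ⟨k, hk, -, -, k2⟩ := Cls2.choice (W := N) hN.1 hP h1 fun s hs => by
    by_cases e : ∃ a ∈ σ, IsFunc a Λ s
    · obtain ⟨a, a1, a2⟩ := e
      obtain ⟨z, z1, z2⟩ := h a a1 s (hz.mem hs h1) a2
      exact ⟨z, hz.mem z1 hΛ, fun _ => ⟨z1, z2⟩⟩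
    · exact ⟨∅, hz.empty, fun a => absurd a e⟩
  have key : ∀ ξ, ξ ∈ σ → Sq k ξ ∈ Λ ∧ P (graph (Sq k) ξ) (Sq k ξ) := fun ξ => by
    induction ξ using ZFSet.inductionOn with
    | _ ξ ih =>
    intro hξ
    have f1 : IsFunc ξ Λ (graph (Sq k) ξ) :=
      isFunc_graph fun η hη => (ih η hη (σo.mem_trans hη hξ)).1
    have e : Sq k ξ = ap k (graph (Sq k) ξ) := by
      rw [Sq, rrec_eq fun _ => rank_lt_of_mem]; rfl
    have := k2 _ (h2 _ (tm2 (K := ZF) (t := fun _ k ξ => graph (fun η => Sq k η) ξ) hz hk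
      (hz.mem hξ hσ)) fun z a => by
        obtain ⟨x, a1, y, a2, rfl⟩ := mem_prod.1 (f1.1 a)
        exact pair_mem_prod.2 ⟨σo.mem_trans a1 hξ, a2⟩) ⟨ξ, hξ, f1⟩
    rwa [← e] at this
  refine ⟨_, tm2 (K := ZF) (t := fun _ k ξ => graph (fun η => Sq k η) ξ) hz hk hσ,
    isFunc_graph fun ξ hξ => (key ξ hξ).1, fun ξ hξ => ⟨graph (Sq k) ξ, ?_, fun η hη => ?_⟩⟩
  · rw [ap_graph' hξ]; exact (key ξ hξ).2
  · rw [ap_graph' (σo.mem_trans hη hξ)]; exact pair_mem_graph.2 ⟨hη, rfl⟩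

end Pool.Agent.FS.DirCol
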